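import Pool.Agent.Lib.MP_ea42c6_pr.One.N6
import Pool.Agent.Lib.MP_ea42c6_pr.FP2

/-!
# N7 — orbits of the random map are dominated by the walk

`orbit_hit`: induction on `K`, for all `u`, `S`.  If `A u`: the bound is 1 (`hitP_of`).  If `¬ A u`, then
`t ≥ 1` in the event; with `v = f u` the event is contained in
`⋃_v {f | f u = v} ∩ E' v`, where `E' v = {f | ∃ t ≤ K, OrbInj f v t ∧ (∀ i ≤ t, f^[i] v ∉ insert u S) ∧ A (f^[t] v)}`
(`f^[i+1] u = f^[i] v`; the orbit from `v` avoids `u` by injectivity).  `E' v` depends only on the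
coordinates different from `u` (`indep_orbit`: changing `f u` does not change the orbit of `v` as long as
it avoids `u`), so `pr ({f u = v} ∩ E' v) = kerW u v * pr (E' v)` (`pr_indep_two` with `S = {u}`; and
`pr {f u = v} = kerW u v` by `pr_rect`), and `pr (E' v) ≤ hitP K v` by induction.  `K = 0`, `¬ A u`: the
event is empty, `hitP ≥ 0`.

`orbit_inj`: the same with `∑_{v ≠ u} kerW u v ≤ 1 - 1/ρ` (`kerW u u = 1/|B u| ≥ 1/ρ`).
-/

namespace EA42

open scoped Classical

variable {V : Type*} [Fintype V] [DecidableEq V] {B : V → Finset V}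

omit [Fintype V] [DecidableEq V] in
theorem indep_orbit (u v : V) (f g : V → V) (h : ∀ x, x ≠ u → f x = g x) (t : ℕ)
    (ht : ∀ i ≤ t, f^[i] v ≠ u) : ∀ i ≤ t, f^[i] v = g^[i] v := by
  intro i
  induction i with
  | zero => intro _; rfl
  | succ i ih =>
    intro hi
    have h1 := ih (by omega)
    rw [Function.iterate_succ_apply', Function.iterate_succ_apply', h _ (ht i (by omega)), h1]

theorem N7_pr_coord (hself : ∀ u, u ∈ B u) (u v : V) :
    pr (prodW (kerW B)) {f : V → V | f u = v} = kerW B u v := by
  have h1 := pr_rect (fun i => isProb_kerW hself i) {u} (fun _ => {v})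
  have h2 : {ω : V → V | ∀ i ∈ ({u} : Finset V), ω i ∈ ({v} : Set V)} = {f : V → V | f u = v} := by
    ext f
    simp
  rw [h2, Finset.prod_singleton] at h1
  rw [h1]
  unfold pr
  rw [Finset.sum_eq_single v]
  · rw [if_pos (Set.mem_singleton v)]
  · intro b _ hb
    exact if_neg (fun h => hb (Set.mem_singleton_iff.mp h))
  · intro hn
    exact absurd (Finset.mem_univ v) hn

omit [Fintype V] [DecidableEq V] in
theorem N7_shift {f : V → V} {u : V} {t : ℕ} (h : OrbInj f u (t + 1)) :
    OrbInj f (f u) t ∧ ∀ i ≤ t, f^[i] (f u) ≠ u := by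
  constructor
  · intro i hi j hj hij
    have h1 := h (i + 1) (by omega) (j + 1) (by omega)
      (by rw [Function.iterate_succ_apply, Function.iterate_succ_apply, hij])
    omega
  · intro i hi hu
    have h1 := h (i + 1) (by omega) 0 (by omega)
      (by rw [Function.iterate_succ_apply, hu, Function.iterate_zero, id])
    omega

theorem N7_indep (hself : ∀ u, u ∈ B u) (u v : V) (E : Set (V → V))
    (hE : DepOn (({u} : Finset V) : Set V)ᶜ E) :
    pr (prodW (kerW B)) ({f | f u = v} ∩ E) = kerW B u v * pr (prodW (kerW B)) E := by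
  rw [pr_indep_two (fun i => isProb_kerW hself i) {u} _ _ _ hE, N7_pr_coord hself]
  intro f g h
  have h1 : f u = g u := h u (by simp)
  simp only [Set.mem_ofPred_eq, h1]

theorem orbit_hit (hself : ∀ u, u ∈ B u) (A : V → Prop) (K : ℕ) (S : Finset V) (u : V) :
    pr (prodW (kerW B)) {f | ∃ t ≤ K, OrbInj f u t ∧ (∀ i ≤ t, f^[i] u ∉ S) ∧ A (f^[t] u)} ≤
      hitP B A K u := by
  have hP := isProb_prodW (fun i => isProb_kerW hself i)
  induction K generalizing S u with
  | zero =>
    by_cases hA : A u
    · rw [hitP_of hself A 0 hA]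
      exact pr_le_one hP _
    · have h0 : {f : V → V | ∃ t ≤ 0, OrbInj f u t ∧ (∀ i ≤ t, f^[i] u ∉ S) ∧ A (f^[t] u)} = ∅ := by
        ext f
        simp only [Set.mem_ofPred_eq, Set.mem_empty_iff_false, iff_false]
        rintro ⟨t, ht, -, -, hAt⟩
        obtain rfl : t = 0 := by omega
        exact hA hAt
      rw [h0]
      have h1 : pr (prodW (kerW B)) (∅ : Set (V → V)) = 0 := by
        unfold pr
        simp
      rw [h1]
      exact hitP_nonneg hself A 0 u
  | succ K ih =>
    by_cases hA : A u
    · rw [hitP_of hself A (K + 1) hA]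
      exact pr_le_one hP _
    · have hsub : {f : V → V | ∃ t ≤ K + 1, OrbInj f u t ∧ (∀ i ≤ t, f^[i] u ∉ S) ∧
          A (f^[t] u)} ⊆ {f | ∃ v ∈ (Finset.univ : Finset V), f ∈ ({f | f u = v} ∩
            {f | ∃ t ≤ K, OrbInj f v t ∧ (∀ i ≤ t, f^[i] v ∉ insert u S) ∧ A (f^[t] v)})} := by
        rintro f ⟨t, ht, hinj, hS, hAt⟩
        rcases t with _ | t
        · exact absurd hAt hA
        · refine ⟨f u, Finset.mem_univ _, rfl, t, by omega, (N7_shift hinj).1, ?_, ?_⟩
          · intro i hi hmem
            rcases Finset.mem_insert.mp hmem with h1 | h1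
            · exact (N7_shift hinj).2 i hi h1
            · refine hS (i + 1) (by omega) ?_
              rw [Function.iterate_succ_apply]
              exact h1
          · rw [← Function.iterate_succ_apply]
            exact hAt
      refine (pr_mono hP hsub).trans ((pr_exists_le hP _ _).trans ?_)
      rw [hitP_succ A K hA]
      refine Finset.sum_le_sum fun v _ => ?_
      rw [N7_indep hself u v]
      · exact mul_le_mul_of_nonneg_left (ih (insert u S) v) ((isProb_kerW hself u).1 v)
      · have key : ∀ f g : V → V, (∀ x, x ≠ u → f x = g x) →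
            (∃ t ≤ K, OrbInj f v t ∧ (∀ i ≤ t, f^[i] v ∉ insert u S) ∧ A (f^[t] v)) →
            (∃ t ≤ K, OrbInj g v t ∧ (∀ i ≤ t, g^[i] v ∉ insert u S) ∧ A (g^[t] v)) := by
          rintro f g hfg ⟨t, ht, hinj, hS, hAt⟩
          have hio := indep_orbit u v f g hfg t (fun i hi hu => hS i hi (by
            rw [hu]
            exact Finset.mem_insert_self _ _))
          refine ⟨t, ht, ?_, ?_, ?_⟩
          · intro i hi j hj hij
            rw [← hio i hi, ← hio j hj] at hij
            exact hinj i hi j hj hij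
          · intro i hi
            rw [← hio i hi]
            exact hS i hi
          · rw [← hio t le_rfl]
            exact hAt
        intro f g h
        have h' : ∀ x, x ≠ u → f x = g x := fun x hx => h x (by simpa using hx)
        exact ⟨key f g h', key g f fun x hx => (h' x hx).symm⟩

theorem orbit_inj (hself : ∀ u, u ∈ B u) {ρ : ℝ} (hρ : ∀ u, ((B u).card : ℝ) ≤ ρ) (K : ℕ)
    (S : Finset V) (u : V) :
    pr (prodW (kerW B)) {f | OrbInj f u K ∧ ∀ i ≤ K, f^[i] u ∉ S} ≤ (1 - 1 / ρ) ^ K := by
  have hP := isProb_prodW (fun i => isProb_kerW hself i)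
  induction K generalizing S u with
  | zero =>
    rw [pow_zero]
    exact pr_le_one hP _
  | succ K ih =>
    have hcard : (1 : ℝ) ≤ (B u).card := by
      exact_mod_cast Finset.card_pos.mpr ⟨u, hself u⟩
    have hρ1 : 1 ≤ ρ := hcard.trans (hρ u)
    have hρ0 : 0 ≤ 1 - 1 / ρ := by
      have : 1 / ρ ≤ 1 := by
        rw [div_le_one (by linarith)]
        exact hρ1
      linarith
    have hsub : {f : V → V | OrbInj f u (K + 1) ∧ ∀ i ≤ K + 1, f^[i] u ∉ S} ⊆
        {f | ∃ v ∈ (Finset.univ : Finset V).erase u, f ∈ ({f | f u = v} ∩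
            {f | OrbInj f v K ∧ ∀ i ≤ K, f^[i] v ∉ insert u S})} := by
      rintro f ⟨hinj, hS⟩
      refine ⟨f u, Finset.mem_erase.mpr ⟨?_, Finset.mem_univ _⟩, rfl, (N7_shift hinj).1, ?_⟩
      · have := (N7_shift hinj).2 0 (by omega)
        exact this
      · intro i hi hmem
        rcases Finset.mem_insert.mp hmem with h1 | h1
        · exact (N7_shift hinj).2 i hi h1
        · refine hS (i + 1) (by omega) ?_
          rw [Function.iterate_succ_apply]
          exact h1
    refine (pr_mono hP hsub).trans ((pr_exists_le hP _ _).trans ?_)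
    have h1 : ∀ v ∈ (Finset.univ : Finset V).erase u,
        pr (prodW (kerW B)) ({f | f u = v} ∩
            {f | OrbInj f v K ∧ ∀ i ≤ K, f^[i] v ∉ insert u S}) ≤
          kerW B u v * (1 - 1 / ρ) ^ K := by
      intro v _
      rw [N7_indep hself u v]
      · exact mul_le_mul_of_nonneg_left (ih (insert u S) v) ((isProb_kerW hself u).1 v)
      · have key : ∀ f g : V → V, (∀ x, x ≠ u → f x = g x) →
            (OrbInj f v K ∧ ∀ i ≤ K, f^[i] v ∉ insert u S) →
            (OrbInj g v K ∧ ∀ i ≤ K, g^[i] v ∉ insert u S) := by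
          rintro f g hfg ⟨hinj, hS⟩
          have hio := indep_orbit u v f g hfg K (fun i hi hu => hS i hi (by
            rw [hu]
            exact Finset.mem_insert_self _ _))
          refine ⟨?_, ?_⟩
          · intro i hi j hj hij
            rw [← hio i hi, ← hio j hj] at hij
            exact hinj i hi j hj hij
          · intro i hi
            rw [← hio i hi]
            exact hS i hi
        intro f g h
        have h' : ∀ x, x ≠ u → f x = g x := fun x hx => h x (by simpa using hx)
        exact ⟨key f g h', key g f fun x hx => (h' x hx).symm⟩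
    refine (Finset.sum_le_sum h1).trans ?_
    rw [← Finset.sum_mul, pow_succ, mul_comm]
    refine mul_le_mul_of_nonneg_left ?_ (pow_nonneg hρ0 K)
    have h2 : ∑ v ∈ (Finset.univ : Finset V).erase u, kerW B u v = 1 - kerW B u u := by
      have h3 := (isProb_kerW hself u).2
      rw [← Finset.add_sum_erase _ _ (Finset.mem_univ u)] at h3
      linarith
    rw [h2]
    have h4 : 1 / ρ ≤ kerW B u u := by
      unfold kerW
      rw [if_pos (hself u)]
      exact one_div_le_one_div_of_le (by linarith) (hρ u)
    linarith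

end EA42
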