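import Pool.Agent.Lib.MP_ea42c6_pr.One.Defs
import Pool.Agent.Lib.MP_ea42c6_pr.FP1
import Pool.Agent.Lib.MP_ea42c6_pr.M2
import Pool.Agent.Lib.MP_ea42c6_pr.T1a
import Pool.Agent.Lib.MP_ea42c6_pr.T1b

/-!
# N11 — transfer for `ξ = 1`

`perm_first`: the law of the first member of `B` is uniform: for `|B| ≥ 2` sum `perm_pair` over `s`; for
`|B| = 1` the only member has rank 0 (or count permutations by symmetry).
`one_fixed`: almost surely all `k_u = 1` (`PMF.pure 1`: `PMF.toMeasure_pure`, `dirac`); then `picks u` is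
the set of members of rank 0, that is `{f u}` with `f u` the first member of the ball; so
`irr = mapG f`, and `f` has law `prodW (kerW B)` (`Measure.prod_prod`, `Measure.pi_pi` as in T1b).
`law_one_le`: let `H` be a measurable set containing `{X | ¬ Good X}` with the same measure
(`MeasureTheory.toMeasurable`).  The event `{P (irr ω r)}` is measurable (`measurableSet_irr`); its
part with `X ∈ H` has measure at most that of `H`; the part with `X ∉ H` has measure at most `b`
(`Measure.prod_apply`: every section with `X ∉ H` has measure at most `ofReal b`).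
-/

namespace EA42

open MeasureTheory
open scoped Classical ENNReal

/-- the number of orders in which `a` is first -/
noncomputable def N11_cnt {n : ℕ} (B : Finset (Fin n)) (a : Fin n) : ℕ :=
  (Finset.univ.filter fun π : Equiv.Perm (Fin n) => rk B π a = 0).card

theorem N11_inv {n : ℕ} (B : Finset (Fin n)) (g : Equiv.Perm (Fin n))
    (hg : ∀ v, g v ∈ B ↔ v ∈ B) (a : Fin n) : N11_cnt B a = N11_cnt B (g a) := by
  unfold N11_cnt
  refine Finset.card_bij (fun π _ => π * g⁻¹) ?_ ?_ ?_
  · intro π hπ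
    have h := (Finset.mem_filter.mp hπ).2
    refine Finset.mem_filter.mpr ⟨Finset.mem_univ _, ?_⟩
    rw [rk_mul B g hg]
    exact h
  · intro π _ π' _ h
    exact mul_right_cancel h
  · intro π hπ
    have h := (Finset.mem_filter.mp hπ).2
    refine ⟨π * g, Finset.mem_filter.mpr ⟨Finset.mem_univ _, ?_⟩, ?_⟩
    · have e1 : π * g * g⁻¹ = π := by group
      have h1 := rk_mul B g hg (π * g) a
      rw [e1] at h1
      rw [← h1]
      exact h
    · group

theorem N11_exists_first {n : ℕ} (B : Finset (Fin n)) (hB : B.Nonempty)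
    (π : Equiv.Perm (Fin n)) : ∃ a ∈ B, rk B π a = 0 := by
  obtain ⟨a, ha, hamin⟩ := Finset.exists_min_image B π hB
  refine ⟨a, ha, ?_⟩
  unfold rk
  rw [Finset.card_eq_zero, Finset.filter_eq_empty_iff]
  intro w hw hlt
  exact absurd (hamin w hw) (not_le.mpr hlt)

theorem N11_sum {n : ℕ} (B : Finset (Fin n)) (hB : B.Nonempty) :
    ∑ a ∈ B, N11_cnt B a = Nat.factorial n := by
  unfold N11_cnt
  simp_rw [Finset.card_filter]
  rw [Finset.sum_comm]
  have h1 : ∀ π ∈ (Finset.univ : Finset (Equiv.Perm (Fin n))),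
      ∑ a ∈ B, (if rk B π a = 0 then 1 else 0) = 1 := by
    intro π _
    rw [← Finset.card_filter, Finset.card_eq_one]
    obtain ⟨a, ha, h0⟩ := N11_exists_first B hB π
    refine ⟨a, ?_⟩
    ext w
    rw [Finset.mem_filter, Finset.mem_singleton]
    constructor
    · rintro ⟨h1, h2⟩
      exact rk_inj B π h1 ha (h2.trans h0.symm)
    · rintro rfl
      exact ⟨ha, h0⟩
  rw [Finset.sum_congr rfl h1, Finset.sum_const, Finset.card_univ, Fintype.card_perm,
    Fintype.card_fin, smul_eq_mul, mul_one]

theorem perm_first {n : ℕ} (B : Finset (Fin n)) {a : Fin n} (ha : a ∈ B) :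
    permLaw n {π | rk B π a = 0} = ENNReal.ofReal (1 / (B.card : ℝ)) := by
  have hB : B.Nonempty := ⟨a, ha⟩
  have hc : N11_cnt B a * B.card = Nat.factorial n := by
    rw [← N11_sum B hB]
    have h2 : ∀ b ∈ B, N11_cnt B b = N11_cnt B a := by
      intro b hb
      have h3 := N11_inv B (Equiv.swap b a) (swap_mem_iff B hb ha) b
      rw [Equiv.swap_apply_left] at h3
      exact h3
    rw [Finset.sum_congr rfl h2, Finset.sum_const, smul_eq_mul, mul_comm]
  unfold permLaw
  rw [PMF.toMeasure_uniformOfFintype_apply _ (MeasurableSpace.measurableSet_top),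
    Fintype.card_perm, Fintype.card_fin]
  have h1 : Fintype.card {π : Equiv.Perm (Fin n) | rk B π a = 0} = N11_cnt B a := by
    unfold N11_cnt
    rw [← Set.toFinset_card]
    congr 1
    ext π
    simp
  rw [h1]
  set N := N11_cnt B a
  have h2 : (0 : ℝ) < (Nat.factorial n : ℝ) := by exact_mod_cast Nat.factorial_pos n
  have h3 : (N : ENNReal) / (Nat.factorial n : ENNReal) =
      ENNReal.ofReal ((N : ℝ) / (Nat.factorial n : ℝ)) := by
    rw [ENNReal.ofReal_div_of_pos h2, ENNReal.ofReal_natCast, ENNReal.ofReal_natCast]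
  rw [h3]
  congr 1
  have h4 : (N : ℝ) * (B.card : ℝ) = (Nat.factorial n : ℝ) := by exact_mod_cast hc
  have h5 : (0 : ℝ) < (B.card : ℝ) := by exact_mod_cast Finset.card_pos.mpr hB
  rw [div_eq_div_iff h2.ne' h5.ne', one_mul]
  exact h4

/-- the first member of `B` in an order -/
noncomputable def N11_first {n : ℕ} (B : Finset (Fin n)) (u : Fin n) (π : Equiv.Perm (Fin n)) :
    Fin n :=
  if h : B.Nonempty then (N11_exists_first B h π).choose else u

theorem N11_first_iff {n : ℕ} (B : Finset (Fin n)) (u : Fin n) (π : Equiv.Perm (Fin n))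
    (h : B.Nonempty) (a : Fin n) : N11_first B u π = a ↔ a ∈ B ∧ rk B π a = 0 := by
  have hspec := (N11_exists_first B h π).choose_spec
  unfold N11_first
  rw [dif_pos h]
  constructor
  · intro e
    rw [e] at hspec
    exact hspec
  · intro e
    exact rk_inj B π hspec.1 e.1 (hspec.2.trans e.2.symm)

theorem N11_law {n : ℕ} (B : Fin n → Finset (Fin n)) (hself : ∀ u, u ∈ B u) (f : Fin n → Fin n) :
    ((Measure.pi fun _ : Fin n => (PMF.pure 1 : PMF ℕ).toMeasure).prod
        (Measure.pi fun _ : Fin n => permLaw n))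
        {κπ | (fun u => N11_first (B u) u (κπ.2 u)) = f} =
      ENNReal.ofReal (prodW (kerW B) f) := by
  have hset : {κπ : (Fin n → ℕ) × (Fin n → Equiv.Perm (Fin n)) |
      (fun u => N11_first (B u) u (κπ.2 u)) = f} =
      Set.univ ×ˢ (Set.univ.pi fun u => {π | N11_first (B u) u π = f u}) := by
    ext ⟨k, π⟩
    simp only [Set.mem_ofPred_eq, Set.mem_prod, Set.mem_pi, Set.mem_univ, true_imp_iff, true_and]
    exact funext_iff
  have h1 : ∀ u, permLaw n {π | N11_first (B u) u π = f u} = ENNReal.ofReal (kerW B u (f u)) := by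
    intro u
    have hne : (B u).Nonempty := ⟨u, hself u⟩
    unfold kerW
    by_cases h : f u ∈ B u
    · rw [if_pos h, ← perm_first (B u) h]
      congr 1
      ext π
      simp only [Set.mem_ofPred_eq, N11_first_iff _ _ _ hne]
      exact ⟨fun hh => hh.2, fun hh => ⟨h, hh⟩⟩
    · rw [if_neg h, ENNReal.ofReal_zero]
      have hem : {π | N11_first (B u) u π = f u} = (∅ : Set (Equiv.Perm (Fin n))) := by
        ext π
        simp only [Set.mem_ofPred_eq, Set.mem_empty_iff_false, iff_false,
          N11_first_iff _ _ _ hne]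
        exact fun hh => h hh.1
      rw [hem, measure_empty]
  rw [hset, Measure.prod_prod, Measure.pi_pi, measure_univ, one_mul,
    Finset.prod_congr rfl fun u _ => h1 u, ← ENNReal.ofReal_prod_of_nonneg]
  · rfl
  · intro u _
    unfold kerW
    split_ifs
    · positivity
    · exact le_rfl

theorem N11_null (n : ℕ) :
    ((Measure.pi fun _ : Fin n => (PMF.pure 1 : PMF ℕ).toMeasure).prod
        (Measure.pi fun _ : Fin n => permLaw n))
        {κπ | ∃ u, κπ.1 u ≠ 1} = 0 := by
  have he : {κπ : (Fin n → ℕ) × (Fin n → Equiv.Perm (Fin n)) | ∃ u, κπ.1 u ≠ 1} =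
      ⋃ u, {κπ | κπ.1 u ≠ 1} := by
    ext x
    simp
  rw [he, measure_iUnion_null_iff]
  intro u
  have hset : {κπ : (Fin n → ℕ) × (Fin n → Equiv.Perm (Fin n)) | κπ.1 u ≠ 1} =
      (Set.univ.pi fun i => if i = u then {k : ℕ | k ≠ 1} else Set.univ) ×ˢ Set.univ := by
    ext ⟨k, π⟩
    simp only [Set.mem_ofPred_eq, Set.mem_prod, Set.mem_pi, Set.mem_univ, true_imp_iff, and_true]
    constructor
    · intro h i
      by_cases hi : i = u
      · rw [if_pos hi, hi]
        exact h
      · rw [if_neg hi]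
        exact Set.mem_univ _
    · intro h
      have := h u
      rw [if_pos rfl] at this
      exact this
  rw [hset, Measure.prod_prod, Measure.pi_pi, Finset.prod_eq_zero (Finset.mem_univ u), zero_mul]
  rw [if_pos rfl, PMF.toMeasure_apply_eq_zero_iff _ (MeasurableSet.of_discrete), Set.disjoint_left]
  intro k hk hk'
  rw [PMF.mem_support_pure_iff] at hk
  exact hk' hk

theorem N11_irr {n : ℕ} (X : Fin n → Pt) {r : ℝ} (hself : ∀ u, u ∈ ball X r u)
    (κπ : (Fin n → ℕ) × (Fin n → Equiv.Perm (Fin n))) (h : ∀ u, κπ.1 u = 1) :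
    irr ((X, κπ) : Sample n) r = mapG (fun u => N11_first (ball X r u) u (κπ.2 u)) := by
  unfold irr mapG
  congr 1
  funext u v
  have h1 : v ∈ picks ((X, κπ) : Sample n) r u ↔
      v ∈ ball X r u ∧ rk (ball X r u) (κπ.2 u) v < κπ.1 u := by
    unfold picks
    rw [Finset.mem_filter]
  rw [h1, h u, Nat.lt_one_iff]
  refine propext ?_
  rw [← N11_first_iff (ball X r u) u (κπ.2 u) ⟨u, hself u⟩ v]
  exact eq_comm

theorem N11_self {n : ℕ} (X : Fin n → Pt) {r : ℝ} (hr : 0 < r) (u : Fin n) :
    u ∈ ball X r u := by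
  unfold ball
  rw [Finset.mem_filter]
  refine ⟨Finset.mem_univ _, ?_⟩
  have h0 : tdist (X u) (X u) = 0 := by
    unfold tdist cdist
    simp
  rw [h0]
  exact hr

theorem N11_kerW_nonneg {n : ℕ} (B : Fin n → Finset (Fin n)) (f : Fin n → Fin n) :
    0 ≤ prodW (kerW B) f := by
  unfold prodW
  refine Finset.prod_nonneg fun u _ => ?_
  unfold kerW
  split_ifs
  · positivity
  · exact le_rfl

theorem one_fixed {n : ℕ} (X : Fin n → Pt) {r : ℝ} (hr : 0 < r)
    (P : SimpleGraph (Fin n) → Prop) :
    ((Measure.pi fun _ : Fin n => (PMF.pure 1 : PMF ℕ).toMeasure).prod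
        (Measure.pi fun _ : Fin n => permLaw n)) {κπ | P (irr ((X, κπ) : Sample n) r)} ≤
      ENNReal.ofReal (pr (prodW (kerW (ball X r))) {f | P (mapG f)}) := by
  have hself := N11_self X hr
  have hsub : {κπ | P (irr ((X, κπ) : Sample n) r)} ⊆
      (⋃ f ∈ Finset.univ.filter (fun f : Fin n → Fin n => P (mapG f)),
        {κπ : (Fin n → ℕ) × (Fin n → Equiv.Perm (Fin n)) |
          (fun u => N11_first (ball X r u) u (κπ.2 u)) = f}) ∪ {κπ | ∃ u, κπ.1 u ≠ 1} := by
    intro κπ hκ
    by_cases h : ∃ u, κπ.1 u ≠ 1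
    · exact Or.inr h
    · left
      have h' : ∀ u, κπ.1 u = 1 := by
        intro u
        by_contra hu
        exact h ⟨u, hu⟩
      have h2 : P (irr ((X, κπ) : Sample n) r) := hκ
      rw [N11_irr X hself κπ h'] at h2
      refine Set.mem_iUnion₂.mpr ⟨_, Finset.mem_filter.mpr ⟨Finset.mem_univ _, h2⟩, rfl⟩
  refine (measure_mono hsub).trans ((measure_union_le _ _).trans ?_)
  rw [N11_null n, add_zero]
  refine (measure_biUnion_finset_le _ _).trans ?_
  rw [Finset.sum_congr rfl (fun f _ => N11_law (ball X r) hself f),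
    ← ENNReal.ofReal_sum_of_nonneg (fun f _ => N11_kerW_nonneg _ f)]
  refine le_of_eq (congrArg _ ?_)
  unfold pr
  rw [Finset.sum_filter]
  refine Finset.sum_congr rfl fun f _ => ?_
  by_cases hf : P (mapG f)
  · rw [if_pos hf, if_pos (by exact hf)]
  · rw [if_neg hf, if_neg (by exact hf)]

theorem law_one_le {n : ℕ} {r : ℝ} (hr : 0 < r) (P : SimpleGraph (Fin n) → Prop)
    (Good : (Fin n → Pt) → Prop) {b : ℝ}
    (hb : ∀ X, Good X → pr (prodW (kerW (ball X r))) {f | P (mapG f)} ≤ b) :
    law (PMF.pure 1) n {ω | P (irr ω r)} ≤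
      (Measure.pi fun _ : Fin n => unif) {X | ¬ Good X} + ENNReal.ofReal b := by
  set H := toMeasurable (Measure.pi fun _ : Fin n => unif) {X : Fin n → Pt | ¬ Good X} with hH
  have hHm : MeasurableSet H := measurableSet_toMeasurable _ _
  have hHs : {X : Fin n → Pt | ¬ Good X} ⊆ H := subset_toMeasurable _ _
  have hHv : (Measure.pi fun _ : Fin n => unif) H =
      (Measure.pi fun _ : Fin n => unif) {X | ¬ Good X} := measure_toMeasurable _
  unfold law
  rw [Measure.prod_apply (measurableSet_irr n r P), ← hHv]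
  have h1 : ∀ X : Fin n → Pt,
      ((Measure.pi fun _ : Fin n => (PMF.pure 1 : PMF ℕ).toMeasure).prod
        (Measure.pi fun _ : Fin n => permLaw n)) (Prod.mk X ⁻¹' {ω : Sample n | P (irr ω r)}) ≤
      H.indicator 1 X + ENNReal.ofReal b := by
    intro X
    by_cases hX : X ∈ H
    · rw [Set.indicator_of_mem hX]
      have h2 : ((Measure.pi fun _ : Fin n => (PMF.pure 1 : PMF ℕ).toMeasure).prod
        (Measure.pi fun _ : Fin n => permLaw n)) (Prod.mk X ⁻¹' {ω : Sample n | P (irr ω r)}) ≤ 1 :=
        prob_le_one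
      exact h2.trans le_self_add
    · rw [Set.indicator_of_notMem hX, zero_add]
      have hG : Good X := by
        by_contra hn
        exact hX (hHs hn)
      exact (one_fixed X hr P).trans (ENNReal.ofReal_le_ofReal (hb X hG))
  refine (lintegral_mono h1).trans ?_
  rw [lintegral_add_right _ measurable_const, lintegral_indicator_one hHm, lintegral_const,
    measure_univ, mul_one]

end EA42
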