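import Pool.Agent.Lib.MP_ea42c6_pr.One.N4
import Pool.Agent.Lib.MP_ea42c6_pr.G1

/-!
# N5 — displacement of the stationary walk on the geometric graph

`sdiff a b` differs from `b - a` by an integer.  For `a, b ∈ [0,1]`, `|sdiff a b| = cdist a b`
(`round_le`-type lemma: `|x - round x| ≤ |x - k|` for every integer `k`, and `cdist_le`; the minimum
over `k ∈ {-1,0,1}` is `cdist`).  If `cdist a b < 1/2` then `sdiff b a = - sdiff a b` (the nearest
integer is unique: `|b - a - k| < 1/2` determines `k`).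
For `v ∈ ball X r u`, `r ≤ 1/16`: both coordinates have `cdist < r` (`cdist ≥ 0` on `[0,1]`, so
`cdist ≤ tdist`), so `F_i u v = sdiff (X u).i (X v).i` satisfies the hypotheses of `lyons_zheng`.
The sum of `sdiff` over the steps `s < t` differs from `(X (w t)).i - (X (w 0)).i` by an integer, so
`cdist (X (w 0)).i (X (w t)).i ≤ |addF F_i K w t|` (`cdist_le`).  If `δ ≤ tdist (X (w 0)) (X (w t))`
then one of the two `cdist` is `≥ δ/2`.  Apply `lyons_zheng` with `a = δ/2` to both coordinates:
`2 · 8 K r²/(δ/2)² = 64 K r²/δ²`.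
-/

namespace EA42

open scoped Classical

theorem abs_sdiff {a b : ℝ} (ha : a ∈ Set.Icc (0 : ℝ) 1) (hb : b ∈ Set.Icc (0 : ℝ) 1) :
    |sdiff a b| = cdist a b := by
  refine le_antisymm ?_ (cdist_le a b (round (b - a)))
  unfold sdiff cdist
  refine le_min ?_ ?_
  · have h := round_le (b - a) 0
    rw [Int.cast_zero, sub_zero, abs_sub_comm b a] at h
    exact h
  · rcases le_total a b with h | h
    · have h1 := round_le (b - a) 1
      have h2 : |b - a - ((1 : ℤ) : ℝ)| = 1 - |a - b| := by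
        rw [abs_sub_comm a b, abs_of_nonneg (sub_nonneg.2 h), Int.cast_one,
          abs_of_nonpos (by linarith [ha.1, hb.2])]
        ring
      exact h1.trans (le_of_eq h2)
    · have h1 := round_le (b - a) (-1)
      have h2 : |b - a - ((-1 : ℤ) : ℝ)| = 1 - |a - b| := by
        rw [abs_of_nonneg (sub_nonneg.2 h), Int.cast_neg, Int.cast_one,
          abs_of_nonneg (by linarith [hb.1, ha.2])]
        ring
      exact h1.trans (le_of_eq h2)

theorem sdiff_anti {a b : ℝ} (ha : a ∈ Set.Icc (0 : ℝ) 1) (hb : b ∈ Set.Icc (0 : ℝ) 1)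
    (h : cdist a b < 1 / 2) : sdiff b a = -sdiff a b := by
  have h1 : |b - a - (round (b - a) : ℝ)| < 1 / 2 := by
    have := abs_sdiff ha hb
    unfold sdiff at this
    rw [this]
    exact h
  have h2 := round_le (a - b) (-round (b - a))
  have h3 : |a - b - ((-round (b - a) : ℤ) : ℝ)| = |b - a - (round (b - a) : ℝ)| := by
    rw [← abs_neg]
    congr 1
    push_cast
    ring
  rw [h3] at h2
  have h4 : |a - b - (round (a - b) : ℝ)| < 1 / 2 := lt_of_le_of_lt h2 h1
  have h5 : round (a - b) = -round (b - a) := by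
    have h6 := abs_lt.1 h1
    have h7 := abs_lt.1 h4
    have h8 : ((round (a - b) + round (b - a) : ℤ) : ℝ) < 1 := by
      push_cast
      linarith
    have h9 : (-1 : ℝ) < ((round (a - b) + round (b - a) : ℤ) : ℝ) := by
      push_cast
      linarith
    have h10 : round (a - b) + round (b - a) < 1 := by exact_mod_cast h8
    have h11 : -1 < round (a - b) + round (b - a) := by exact_mod_cast h9
    omega
  unfold sdiff
  rw [h5]
  push_cast
  ring

theorem n5_cdist_symm (a b : ℝ) : cdist a b = cdist b a := by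
  unfold cdist
  rw [abs_sub_comm]

theorem tdist_symm (x y : Pt) : tdist x y = tdist y x := by
  unfold tdist
  rw [n5_cdist_symm x.1 y.1, n5_cdist_symm x.2 y.2]

theorem n5_tdist_self (x : Pt) : tdist x x = 0 := by
  have h : ∀ a : ℝ, cdist a a = 0 := fun a => by
    unfold cdist
    simp
  unfold tdist
  rw [h, h]
  simp

theorem symB_ball {n : ℕ} (X : Fin n → Pt) {r : ℝ} (hr : 0 < r) : SymB (ball X r) := by
  refine ⟨fun u => ?_, fun u v h => ?_⟩
  · unfold ball
    rw [Finset.mem_filter]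
    refine ⟨Finset.mem_univ _, ?_⟩
    rw [n5_tdist_self]
    exact hr
  · unfold ball at h ⊢
    rw [Finset.mem_filter] at h ⊢
    refine ⟨Finset.mem_univ _, ?_⟩
    rw [tdist_symm]
    exact h.2

/-- The increments of one coordinate along the walk. -/
theorem n5_coord {V : Type*} [Fintype V] (y : V → ℝ) {K : ℕ} (w : Fin (K + 1) → V) {t : ℕ}
    (ht : t ≤ K) :
    cdist (y (w 0)) (y (w ⟨t, Nat.lt_succ_of_le ht⟩)) ≤
      |addF (fun u v => sdiff (y u) (y v)) K w t| := by
  have h1 := n4_tele (fun i => y (w i)) ht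
  have h2 : addF (fun u v => sdiff (y u) (y v)) K w t =
      ∑ s : Fin K, (if (s : ℕ) < t then y (w s.succ) - y (w s.castSucc) else 0) -
        ((∑ s : Fin K, (if (s : ℕ) < t then round (y (w s.succ) - y (w s.castSucc)) else 0) : ℤ) : ℝ)
        := by
    rw [Int.cast_sum, ← Finset.sum_sub_distrib]
    unfold addF
    refine Finset.sum_congr rfl fun s _ => ?_
    by_cases hs : (s : ℕ) < t
    · rw [if_pos hs, if_pos hs, if_pos hs]
      rfl
    · rw [if_neg hs, if_neg hs, if_neg hs]
      simp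
  rw [h2, h1]
  exact cdist_le _ _ _

theorem displacement {n : ℕ} [NeZero n] (X : Fin n → Pt)
    (hX : ∀ u, X u ∈ Set.Icc (0 : ℝ) 1 ×ˢ Set.Icc (0 : ℝ) 1) {r δ : ℝ} (hr : 0 < r)
    (hδ : 16 * r ≤ δ) (hδ1 : δ ≤ 1) (K : ℕ) :
    pr (statW (ball X r) K) {w | ∃ t, δ ≤ tdist (X (w 0)) (X (w t))} ≤
      64 * K * r ^ 2 / δ ^ 2 := by
  have hB := symB_ball X hr
  have : Nonempty (Fin n) := ⟨⟨0, Nat.pos_of_ne_zero (NeZero.ne n)⟩⟩
  have hP := isProb_statW (B := ball X r) hB.self K
  have hδ0 : 0 < δ := by linarith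
  have hcd : ∀ u, ∀ v ∈ ball X r u, cdist (X u).1 (X v).1 < r ∧ cdist (X u).2 (X v).2 < r := by
    intro u v hv
    have h1 : tdist (X u) (X v) < r := (Finset.mem_filter.1 hv).2
    have c1 := cdist_nonneg (hX u).1 (hX v).1
    have c2 := cdist_nonneg (hX u).2 (hX v).2
    unfold tdist at h1
    constructor
    · refine lt_of_le_of_lt ?_ h1
      exact Real.le_sqrt_of_sq_le (by nlinarith)
    · refine lt_of_le_of_lt ?_ h1
      exact Real.le_sqrt_of_sq_le (by nlinarith)
  have L1 := lyons_zheng hB (fun u v => sdiff (X u).1 (X v).1) hr.le (a := δ / 2) (by linarith)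
    (by linarith) (fun u v hv => by
      rw [abs_sdiff (hX u).1 (hX v).1]
      exact (hcd u v hv).1.le) (fun u v hv => sdiff_anti (hX u).1 (hX v).1 (by
        have := (hcd u v hv).1
        linarith)) K
  have L2 := lyons_zheng hB (fun u v => sdiff (X u).2 (X v).2) hr.le (a := δ / 2) (by linarith)
    (by linarith) (fun u v hv => by
      rw [abs_sdiff (hX u).2 (hX v).2]
      exact (hcd u v hv).2.le) (fun u v hv => sdiff_anti (hX u).2 (hX v).2 (by
        have := (hcd u v hv).2
        linarith)) K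
  have h1 : pr (statW (ball X r) K) {w | ∃ t, δ ≤ tdist (X (w 0)) (X (w t))} ≤
      pr (statW (ball X r) K)
        ({w | ∃ t ≤ K, δ / 2 ≤ |addF (fun u v => sdiff (X u).1 (X v).1) K w t|} ∪
          {w | ∃ t ≤ K, δ / 2 ≤ |addF (fun u v => sdiff (X u).2 (X v).2) K w t|}) := by
    refine pr_mono hP ?_
    rintro w ⟨t, ht⟩
    have htK : (t : ℕ) ≤ K := Nat.le_of_lt_succ t.isLt
    have e1 := n5_coord (fun u => (X u).1) w htK
    have e2 := n5_coord (fun u => (X u).2) w htK
    have c1 := cdist_nonneg (hX (w 0)).1 (hX (w t)).1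
    have c2 := cdist_nonneg (hX (w 0)).2 (hX (w t)).2
    by_cases hc : δ / 2 ≤ cdist (X (w 0)).1 (X (w t)).1
    · exact Or.inl ⟨t, htK, hc.trans e1⟩
    · refine Or.inr ⟨t, htK, le_trans ?_ e2⟩
      by_contra hc2
      rw [not_le] at hc hc2
      have hc2' : cdist (X (w 0)).2 (X (w t)).2 < δ / 2 := hc2
      have h3 : tdist (X (w 0)) (X (w t)) < δ := by
        unfold tdist
        rw [Real.sqrt_lt' hδ0]
        nlinarith
      linarith
  refine h1.trans ((pr_union_le hP _ _).trans ?_)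
  have h3 : 64 * K * r ^ 2 / δ ^ 2 = 8 * K * r ^ 2 / (δ / 2) ^ 2 + 8 * K * r ^ 2 / (δ / 2) ^ 2 := by
    field_simp
    ring
  rw [h3]
  exact add_le_add L1 L2

end EA42
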