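import Pool.Agent.Lib.MP_ea42c6_pr.One.Defs
import Pool.Agent.Lib.MP_ea42c6_pr.FP1

/-!
# N1 — walks: recursion and total mass

`fromW_succ`: a walk of `K+1` steps from `u` is `Fin.cons u w` with `w` a walk of `K` steps from its
first point `v`, weight `kerW u v * walkW w` (`Fin.consEquiv` / `Fin.insertNthEquiv`,
`Fin.prod_univ_succ`; `(Fin.cons u w) 0 = u`, `(Fin.cons u w) s.succ = w s`).
`isProb_*`: from the recursions (`∑ v, kerW u v = 1` since `u ∈ B u`, so `B u` is nonempty).
`pr_statW`: split by the start.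
-/

namespace EA42

open scoped Classical

variable {V : Type*} [Fintype V] {B : V → Finset V}

theorem kerW_nonneg (u v : V) : 0 ≤ kerW B u v := by
  unfold kerW
  split_ifs
  · positivity
  · exact le_rfl

theorem isProb_kerW (hself : ∀ u, u ∈ B u) (u : V) : IsProb (kerW B u) := by
  refine ⟨fun v => kerW_nonneg u v, ?_⟩
  unfold kerW
  have hc : ((B u).card : ℝ) ≠ 0 := by
    have : 0 < (B u).card := Finset.card_pos.mpr ⟨u, hself u⟩
    positivity
  rw [← Finset.sum_filter, Finset.filter_mem_eq_inter, Finset.univ_inter, Finset.sum_const,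
    nsmul_eq_mul, mul_one_div, div_self hc]

theorem N1_walkW_nonneg (K : ℕ) (w : Fin (K + 1) → V) : 0 ≤ walkW B K w :=
  Finset.prod_nonneg fun _ _ => kerW_nonneg _ _

theorem N1_walkW_cons (u : V) (K : ℕ) (w : Fin (K + 1) → V) :
    walkW B (K + 1) (Fin.cons u w : Fin (K + 2) → V) = kerW B u (w 0) * walkW B K w := by
  unfold walkW
  rw [Fin.prod_univ_succ]
  rfl

theorem N1_pr_univ {Ω : Type*} [Fintype Ω] (p : Ω → ℝ) : pr p Set.univ = ∑ ω, p ω := by
  unfold pr
  exact Finset.sum_congr rfl fun ω _ => if_pos (Set.mem_univ ω)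

theorem fromW_zero (u : V) (E : Set (Fin 1 → V)) :
    pr (fromW B u 0) E = if (fun _ => u) ∈ E then 1 else 0 := by
  unfold pr
  rw [Finset.sum_eq_single (fun _ => u)]
  · unfold fromW walkW
    simp
  · intro w _ hw
    have h0 : w 0 ≠ u := by
      intro h
      apply hw
      funext i
      have hi : i = 0 := Fin.ext (by omega)
      rw [hi, h]
    unfold fromW
    rw [if_neg h0]
    simp
  · intro h
    exact absurd (Finset.mem_univ _) h

theorem fromW_succ (u : V) (K : ℕ) (E : Set (Fin (K + 2) → V)) :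
    pr (fromW B u (K + 1)) E =
      ∑ v, kerW B u v * pr (fromW B v K) {w | (Fin.cons u w : Fin (K + 2) → V) ∈ E} := by
  unfold pr
  have h1 : ∑ ω : Fin (K + 2) → V, (if ω ∈ E then fromW B u (K + 1) ω else 0) =
      ∑ z : V × (Fin (K + 1) → V), (if (Fin.cons z.1 z.2 : Fin (K + 2) → V) ∈ E then
        fromW B u (K + 1) (Fin.cons z.1 z.2 : Fin (K + 2) → V) else 0) :=
    ((Fin.consEquiv (fun _ : Fin (K + 2) => V)).sum_comp
      (fun ω => if ω ∈ E then fromW B u (K + 1) ω else 0)).symm
  rw [h1, Fintype.sum_prod_type, Finset.sum_eq_single u]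
  · have h2 : ∀ v, kerW B u v * ∑ w : Fin (K + 1) → V,
        (if w ∈ {w | (Fin.cons u w : Fin (K + 2) → V) ∈ E} then fromW B v K w else 0) =
        ∑ w : Fin (K + 1) → V, (if v = w 0 then
          (if (Fin.cons u w : Fin (K + 2) → V) ∈ E then kerW B u v * walkW B K w else 0)
          else 0) := by
      intro v
      rw [Finset.mul_sum]
      refine Finset.sum_congr rfl fun w _ => ?_
      unfold fromW
      by_cases h3 : (Fin.cons u w : Fin (K + 2) → V) ∈ E
      · have h3' : w ∈ {w : Fin (K + 1) → V | (Fin.cons u w : Fin (K + 2) → V) ∈ E} := h3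
        rw [if_pos h3', if_pos h3]
        by_cases h4 : w 0 = v
        · rw [if_pos h4, if_pos h4.symm]
        · rw [if_neg h4, if_neg fun h => h4 h.symm, mul_zero]
      · have h3' : w ∉ {w : Fin (K + 1) → V | (Fin.cons u w : Fin (K + 2) → V) ∈ E} := h3
        rw [if_neg h3', if_neg h3, mul_zero]
        split_ifs <;> rfl
    rw [Finset.sum_congr rfl fun v _ => h2 v, Finset.sum_comm]
    refine Finset.sum_congr rfl fun w _ => ?_
    rw [Finset.sum_ite_eq' Finset.univ (w 0), if_pos (Finset.mem_univ _)]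
    have h5 : fromW B u (K + 1) (Fin.cons u w : Fin (K + 2) → V) = kerW B u (w 0) * walkW B K w := by
      unfold fromW
      rw [Fin.cons_zero, if_pos rfl, N1_walkW_cons]
    rw [h5]
  · intro a _ ha
    refine Finset.sum_eq_zero fun w _ => ?_
    unfold fromW
    rw [Fin.cons_zero, if_neg ha]
    split_ifs <;> rfl
  · intro h
    exact absurd (Finset.mem_univ _) h

theorem isProb_fromW (hself : ∀ u, u ∈ B u) (u : V) (K : ℕ) : IsProb (fromW B u K) := by
  refine ⟨fun w => ?_, ?_⟩
  · unfold fromW
    split_ifs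
    · exact N1_walkW_nonneg K w
    · exact le_rfl
  · rw [← N1_pr_univ]
    induction K generalizing u with
    | zero => rw [fromW_zero, if_pos (Set.mem_univ _)]
    | succ K ih =>
      rw [fromW_succ]
      have h1 : ∀ v, pr (fromW B v K) {w | (Fin.cons u w : Fin (K + 2) → V) ∈
          (Set.univ : Set (Fin (K + 2) → V))} = 1 := by
        intro v
        have h2 : {w : Fin (K + 1) → V | (Fin.cons u w : Fin (K + 2) → V) ∈
            (Set.univ : Set (Fin (K + 2) → V))} = Set.univ := by
          ext w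
          simp
        rw [h2]
        exact ih v
      rw [Finset.sum_congr rfl fun v _ => by rw [h1 v, mul_one]]
      exact (isProb_kerW hself u).2

theorem pr_statW (K : ℕ) (E : Set (Fin (K + 1) → V)) :
    pr (statW B K) E =
      ∑ u, ((B u).card : ℝ) / (∑ x, ((B x).card : ℝ)) * pr (fromW B u K) E := by
  unfold pr
  have h2 : ∀ u, ((B u).card : ℝ) / (∑ x, ((B x).card : ℝ)) * ∑ w : Fin (K + 1) → V,
      (if w ∈ E then fromW B u K w else 0) =
      ∑ w : Fin (K + 1) → V, (if u = w 0 then
        (if w ∈ E then ((B u).card : ℝ) / (∑ x, ((B x).card : ℝ)) * walkW B K w else 0)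
        else 0) := by
    intro u
    rw [Finset.mul_sum]
    refine Finset.sum_congr rfl fun w _ => ?_
    unfold fromW
    by_cases h3 : w ∈ E
    · rw [if_pos h3, if_pos h3]
      by_cases h4 : w 0 = u
      · rw [if_pos h4, if_pos h4.symm]
      · rw [if_neg h4, if_neg fun h => h4 h.symm, mul_zero]
    · rw [if_neg h3, if_neg h3, mul_zero]
      split_ifs <;> rfl
  rw [Finset.sum_congr rfl fun u _ => h2 u, Finset.sum_comm]
  refine Finset.sum_congr rfl fun w _ => ?_
  rw [Finset.sum_ite_eq' Finset.univ (w 0), if_pos (Finset.mem_univ _)]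
  rfl

theorem isProb_statW [Nonempty V] (hself : ∀ u, u ∈ B u) (K : ℕ) : IsProb (statW B K) := by
  have hpos : (0 : ℝ) < ∑ x, ((B x).card : ℝ) := by
    refine Finset.sum_pos (fun x _ => ?_) Finset.univ_nonempty
    have : 0 < (B x).card := Finset.card_pos.mpr ⟨x, hself x⟩
    exact_mod_cast this
  refine ⟨fun w => ?_, ?_⟩
  · unfold statW
    exact mul_nonneg (div_nonneg (Nat.cast_nonneg _) hpos.le) (N1_walkW_nonneg K w)
  · rw [← N1_pr_univ, pr_statW]
    have h1 : ∀ u, pr (fromW B u K) Set.univ = 1 := by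
      intro u
      rw [N1_pr_univ]
      exact (isProb_fromW hself u K).2
    rw [Finset.sum_congr rfl fun u _ => by rw [h1 u, mul_one], ← Finset.sum_div,
      div_self hpos.ne']

/-- On the support, consecutive points are in each other's balls. -/
theorem statW_supp (K : ℕ) (w : Fin (K + 1) → V) (h : statW B K w ≠ 0) (s : Fin K) :
    w s.succ ∈ B (w s.castSucc) := by
  by_contra hno
  apply h
  unfold statW walkW
  rw [Finset.prod_eq_zero (Finset.mem_univ s), mul_zero]
  unfold kerW
  rw [if_neg hno]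

end EA42
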