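import Pool.Agent.Lib.MP_ea42c6_pr.One.Defs

/-!
# N9 — components of the graph of a map

`mapG_reach`: if `u` and `v` are in the same component then `f^[i] u = f^[j] v` for some `i, j` (the relation is an
equivalence containing the edges; induction on the walk).
`comp_structure`: let the largest component be that of `v`; put `z = f^[N] v`, `N = |V|`.  `z` is
periodic (pigeonhole: two of `f^[0] v, ..., f^[N] v` coincide, so `f^[N] v` is on the cycle).  For `w` in
the component `f^[i] w = f^[j] v`, so `f^[i + s] w = f^[j + s] v` for all `s`; choose `s` with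
`j + s = N + (multiple of the period)`.
`orbInj_min`: for the least `t` with `f^[t] u = z` the first `t` steps are distinct.
`giant_count`: for `u` whose orbit meets `z`: `far u z` fails, or the least `t` is `≤ K` (second set), or
`t > K` and the first `K` steps are distinct (third set).  Union bound on cardinalities.
-/

namespace EA42

open scoped Classical

theorem mapG_reach {V : Type*} (f : V → V) {u v : V} (h : (mapG f).Reachable u v) :
    ∃ i j, f^[i] u = f^[j] v := by
  obtain ⟨p⟩ := h
  induction p with
  | nil => exact ⟨0, 0, rfl⟩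
  | @cons u w v hadj _ ih =>
    obtain ⟨i, j, hij⟩ := ih
    unfold mapG at hadj
    rw [SimpleGraph.fromRel_adj] at hadj
    rcases hadj.2 with h1 | h1
    · refine ⟨i + 1, j, ?_⟩
      rw [Function.iterate_succ_apply, ← h1, hij]
    · refine ⟨i, j + 1, ?_⟩
      rw [Function.iterate_succ_apply' f j v, ← hij, ← Function.iterate_succ_apply' f i w,
        Function.iterate_succ_apply, ← h1]

theorem comp_structure {V : Type*} [Fintype V] [Nonempty V] (f : V → V) :
    ∃ z, largest (mapG f) ≤ (Finset.univ.filter fun u => ∃ t, f^[t] u = z).card := by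
  obtain ⟨v, -, hv⟩ := Finset.exists_mem_eq_sup Finset.univ Finset.univ_nonempty
    (fun v => (Finset.univ.filter fun w => (mapG f).Reachable v w).card)
  set N := Fintype.card V with hN
  -- pigeonhole
  obtain ⟨a, b, hab, hfab⟩ : ∃ a b : Fin (N + 1), a ≠ b ∧ f^[a] v = f^[b] v := by
    refine Fintype.exists_ne_map_eq_of_card_lt (fun a : Fin (N + 1) => f^[a] v) ?_
    rw [Fintype.card_fin]
    omega
  have hper : ∃ p, 0 < p ∧ f^[p] (f^[N] v) = f^[N] v := by
    have key : ∀ a b : ℕ, a < b → b ≤ N → f^[a] v = f^[b] v →
        ∃ p, 0 < p ∧ f^[p] (f^[N] v) = f^[N] v := by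
      intro a b hlt hb h
      refine ⟨b - a, by omega, ?_⟩
      have h1 : f^[N] v = f^[N - a] (f^[a] v) := by
        rw [← Function.iterate_add_apply, show N - a + a = N by omega]
      have h2 : f^[b - a] (f^[N] v) = f^[N - a] (f^[b] v) := by
        rw [← Function.iterate_add_apply, ← Function.iterate_add_apply,
          show b - a + N = N - a + b by omega]
      rw [h2, ← h, ← h1]
    rcases lt_or_gt_of_ne (fun h : (a : ℕ) = b => hab (Fin.ext h)) with h | h
    · exact key a b h (by omega) hfab
    · exact key b a h (by omega) hfab.symm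
  obtain ⟨p, hp, hz⟩ := hper
  have hz2 : ∀ m : ℕ, f^[m * p] (f^[N] v) = f^[N] v := by
    intro m
    induction m with
    | zero => simp
    | succ m ih => rw [Nat.succ_mul, Function.iterate_add_apply, hz, ih]
  refine ⟨f^[N] v, ?_⟩
  unfold largest
  rw [hv]
  refine Finset.card_le_card fun w hw => ?_
  rw [Finset.mem_filter] at hw ⊢
  refine ⟨Finset.mem_univ _, ?_⟩
  obtain ⟨i, j, hij⟩ := mapG_reach f hw.2.symm
  refine ⟨i + (N + j * p - j), ?_⟩
  have hj : j ≤ j * p := Nat.le_mul_of_pos_right j hp
  have h1 : f^[i + (N + j * p - j)] w = f^[N + j * p - j] (f^[i] w) := by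
    rw [← Function.iterate_add_apply, add_comm]
  rw [h1, hij, ← Function.iterate_add_apply]
  have h2 : N + j * p - j + j = j * p + N := by omega
  rw [h2, Function.iterate_add_apply, hz2]

theorem orbInj_min {V : Type*} (f : V → V) {u z : V} (h : ∃ t, f^[t] u = z) :
    ∃ t, f^[t] u = z ∧ OrbInj f u t := by
  refine ⟨Nat.find h, Nat.find_spec h, ?_⟩
  set t := Nat.find h with ht
  have hlt : ∀ i j, i < j → j ≤ t → f^[i] u ≠ f^[j] u := by
    intro i j hij hj hf
    have h1 : f^[t - j + i] u = z := by
      rw [Function.iterate_add_apply, hf, ← Function.iterate_add_apply]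
      have h2 : t - j + j = t := by omega
      rw [h2]
      exact Nat.find_spec h
    have h3 : t ≤ t - j + i := Nat.find_min' h h1
    omega
  intro i hi j hj hij
  rcases lt_trichotomy i j with h1 | h1 | h1
  · exact absurd hij (hlt i j h1 hj)
  · exact h1
  · exact absurd hij.symm (hlt j i h1 hi)

theorem giant_count {V : Type*} [Fintype V] [Nonempty V] (f : V → V) (far : V → V → Prop)
    (K : ℕ) : ∃ z, largest (mapG f) ≤
      (Finset.univ.filter fun u => ¬ far u z).card +
      ((Finset.univ.filter fun u => ∃ t ≤ K, OrbInj f u t ∧ far u (f^[t] u)).card +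
        (Finset.univ.filter fun u => OrbInj f u K).card) := by
  obtain ⟨z, hz⟩ := comp_structure f
  refine ⟨z, hz.trans ?_⟩
  have hsub : (Finset.univ.filter fun u => ∃ t, f^[t] u = z) ⊆
      (Finset.univ.filter fun u => ¬ far u z) ∪
      ((Finset.univ.filter fun u => ∃ t ≤ K, OrbInj f u t ∧ far u (f^[t] u)) ∪
        (Finset.univ.filter fun u => OrbInj f u K)) := by
    intro u hu
    rw [Finset.mem_filter] at hu
    obtain ⟨t, ht, hinj⟩ := orbInj_min f hu.2
    rw [Finset.mem_union, Finset.mem_union, Finset.mem_filter, Finset.mem_filter,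
      Finset.mem_filter]
    by_cases hfar : far u z
    · by_cases hK : t ≤ K
      · exact Or.inr (Or.inl ⟨Finset.mem_univ _, t, hK, hinj, by rw [ht]; exact hfar⟩)
      · refine Or.inr (Or.inr ⟨Finset.mem_univ _, ?_⟩)
        intro i hi j hj hij
        exact hinj i (by omega) j (by omega) hij
    · exact Or.inl ⟨Finset.mem_univ _, hfar⟩
  refine (Finset.card_le_card hsub).trans ?_
  refine (Finset.card_union_le _ _).trans ?_
  exact Nat.add_le_add_left (Finset.card_union_le _ _) _

end EA42
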