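import Pool.Agent.Lib.MP_ea42c6_pr.Defs

/-!
# The case `ξ = 1`: definitions used in the proof

`kerW B u`: uniform member of the ball `B u`.  `mapG f`: the graph of a map.  Walks
`w : Fin (K+1) → V` with weight `∏ kerW (w s) (w (s+1))`.
-/

namespace EA42

open MeasureTheory
open scoped Classical ENNReal

noncomputable section

/-- Uniform member of the ball. -/
def kerW {V : Type*} (B : V → Finset V) (u v : V) : ℝ := if v ∈ B u then 1 / ((B u).card : ℝ) else 0

/-- The graph of a map. -/
def mapG {V : Type*} (f : V → V) : SimpleGraph V := SimpleGraph.fromRel fun u v => v = f u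

/-- The balls are symmetric and contain their centre. -/
structure SymB {V : Type*} (B : V → Finset V) : Prop where
  self : ∀ u, u ∈ B u
  symm : ∀ u v, v ∈ B u → u ∈ B v

/-- Weight of a walk, start not weighted. -/
def walkW {V : Type*} (B : V → Finset V) (K : ℕ) (w : Fin (K + 1) → V) : ℝ :=
  ∏ s : Fin K, kerW B (w s.castSucc) (w s.succ)

/-- Walk started at `u`. -/
def fromW {V : Type*} (B : V → Finset V) (u : V) (K : ℕ) (w : Fin (K + 1) → V) : ℝ :=
  if w 0 = u then walkW B K w else 0

/-- Stationary walk: the start has weight proportional to the size of its ball. -/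
def statW {V : Type*} [Fintype V] (B : V → Finset V) (K : ℕ) (w : Fin (K + 1) → V) : ℝ :=
  ((B (w 0)).card : ℝ) / (∑ u, ((B u).card : ℝ)) * walkW B K w

/-- Conditional mean of `F` over one step from `u`. -/
def meanF {V : Type*} [Fintype V] (B : V → Finset V) (F : V → V → ℝ) (u : V) : ℝ :=
  ∑ v, kerW B u v * F u v

/-- The martingale part up to time `t`. -/
def mart {V : Type*} [Fintype V] (B : V → Finset V) (F : V → V → ℝ) (K : ℕ)
    (w : Fin (K + 1) → V) (t : ℕ) : ℝ :=
  ∑ s : Fin K, if (s : ℕ) < t then F (w s.castSucc) (w s.succ) - meanF B F (w s.castSucc) else 0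

/-- The additive functional up to time `t`. -/
def addF {V : Type*} (F : V → V → ℝ) (K : ℕ) (w : Fin (K + 1) → V) (t : ℕ) : ℝ :=
  ∑ s : Fin K, if (s : ℕ) < t then F (w s.castSucc) (w s.succ) else 0

/-- Probability that the walk from `u` meets `A` in at most `K` steps. -/
def hitP {V : Type*} [Fintype V] (B : V → Finset V) (A : V → Prop) (K : ℕ) (u : V) : ℝ :=
  pr (fromW B u K) {w | ∃ t, A (w t)}

/-- The first `t` steps of the orbit of `u` visit distinct vertices. -/
def OrbInj {V : Type*} (f : V → V) (u : V) (t : ℕ) : Prop :=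
  ∀ i ≤ t, ∀ j ≤ t, f^[i] u = f^[j] u → i = j

/-- Signed difference on the circle. -/
def sdiff (a b : ℝ) : ℝ := (b - a) - (round (b - a) : ℝ)

end

end EA42
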