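import Pool.Agent.Lib.MP_ea42c6_pr.One.N7
import Pool.Agent.Lib.MP_ea42c6_pr.One.N9

/-!
# N10 — the bound for fixed positions

On the event, by `giant_count`, `N₁ + N₂ + c ≤ N₁ + |D| + |L|`; `D` splits into the `u` with `|B u| < β` (at
most `N₂`) and the others, so `c ≤ |{u | β ≤ |B u|, ∃ t ≤ K, ...}| + |{u | OrbInj f u K}|`.  Markov
(`pr_markov` for the two counts together: index set `V ⊕ V` or `V × Bool`; or directly):
`pr ≤ (∑_{|B u| ≥ β} pr(D_u) + ∑_u pr(L_u))/c`.
`pr(L_u) ≤ (1-1/ρ)^K` (`orbit_inj`, `S = ∅`), `pr(D_u) ≤ hitP B (far u) K u` (`orbit_hit`, `S = ∅`), and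
`∑_{|B u| ≥ β} hitP ≤ ∑_u (|B u|/β) hitP (far u) K u = (R/β) pr (statW) {∃ t, far (w 0) (w t)}`
(`pr_statW`; on the support of `fromW u`, `w 0 = u`).
-/

namespace EA42

open scoped Classical

theorem N10_from {V : Type*} [Fintype V] {B : V → Finset V} (far : V → V → Prop) (K : ℕ) (u : V) :
    pr (fromW B u K) {w | ∃ t, far (w 0) (w t)} = hitP B (far u) K u := by
  unfold hitP pr
  refine Finset.sum_congr rfl fun w _ => ?_
  by_cases h : w 0 = u
  · have : (w ∈ {w : Fin (K + 1) → V | ∃ t, far (w 0) (w t)}) ↔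
        (w ∈ {w : Fin (K + 1) → V | ∃ t, far u (w t)}) := by
      show (∃ t, far (w 0) (w t)) ↔ (∃ t, far u (w t))
      rw [h]
    by_cases h1 : w ∈ {w : Fin (K + 1) → V | ∃ t, far u (w t)}
    · rw [if_pos h1, if_pos (this.2 h1)]
    · rw [if_neg h1, if_neg fun h2 => h1 (this.1 h2)]
  · have h0 : fromW B u K w = 0 := by
      unfold fromW
      rw [if_neg h]
    rw [h0]
    simp

theorem N10_alg (b β R h : ℝ) (hβ : β ≠ 0) (hR : R ≠ 0) : b / β * h = R / β * (b / R * h) := by
  field_simp

theorem fixed_le {V : Type*} [Fintype V] [DecidableEq V] [Nonempty V] {B : V → Finset V}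
    (hB : SymB B) (far : V → V → Prop) (K : ℕ) {ρ β N₁ N₂ c D : ℝ} (hβ : 0 < β) (hc : 0 < c)
    (hρ : ∀ u, ((B u).card : ℝ) ≤ ρ)
    (hN₁ : ∀ z, ((Finset.univ.filter fun u => ¬ far u z).card : ℝ) ≤ N₁)
    (hN₂ : ((Finset.univ.filter fun u => ((B u).card : ℝ) < β).card : ℝ) ≤ N₂)
    (hD : pr (statW B K) {w | ∃ t, far (w 0) (w t)} ≤ D) :
    pr (prodW (kerW B)) {f | N₁ + N₂ + c ≤ (largest (mapG f) : ℝ)} ≤
      ((Fintype.card V : ℝ) * (1 - 1 / ρ) ^ K + (∑ u, ((B u).card : ℝ)) / β * D) / c := by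
  have hself := hB.self
  have hp : IsProb (prodW (kerW B)) := isProb_prodW fun u => isProb_kerW hself u
  have hR : 0 < ∑ u, ((B u).card : ℝ) := by
    refine Finset.sum_pos (fun u _ => ?_) Finset.univ_nonempty
    exact_mod_cast Finset.card_pos.2 ⟨u, hself u⟩
  set E1 : V → Set (V → V) := fun u => {f | β ≤ ((B u).card : ℝ) ∧
    ∃ t ≤ K, OrbInj f u t ∧ far u (f^[t] u)} with hE1
  set E2 : V → Set (V → V) := fun u => {f | OrbInj f u K} with hE2
  have hmk := pr_markov hp (Finset.univ : Finset (V ⊕ V)) (Sum.elim E1 E2) c hc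
  have hincl : {f : V → V | N₁ + N₂ + c ≤ (largest (mapG f) : ℝ)} ⊆
      {f | c ≤ ((Finset.univ.filter fun k : V ⊕ V => f ∈ Sum.elim E1 E2 k).card : ℝ)} := by
    intro f hf
    have hf' : N₁ + N₂ + c ≤ (largest (mapG f) : ℝ) := hf
    obtain ⟨z, hz⟩ := giant_count f far K
    have hz' : (largest (mapG f) : ℝ) ≤
        ((Finset.univ.filter fun u => ¬ far u z).card : ℝ) +
        (((Finset.univ.filter fun u => ∃ t ≤ K, OrbInj f u t ∧ far u (f^[t] u)).card : ℝ) +
        ((Finset.univ.filter fun u => OrbInj f u K).card : ℝ)) := by exact_mod_cast hz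
    have hsplit : (Finset.univ.filter fun u => ∃ t ≤ K, OrbInj f u t ∧ far u (f^[t] u)).card ≤
        (Finset.univ.filter fun u => ((B u).card : ℝ) < β).card +
          (Finset.univ.filter fun u => f ∈ E1 u).card := by
      refine (Finset.card_le_card ?_).trans (Finset.card_union_le _ _)
      intro u hu
      rw [Finset.mem_filter] at hu
      rw [Finset.mem_union, Finset.mem_filter, Finset.mem_filter]
      rcases lt_or_ge ((B u).card : ℝ) β with h | h
      · exact Or.inl ⟨Finset.mem_univ _, h⟩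
      · exact Or.inr ⟨Finset.mem_univ _, h, hu.2⟩
    have hsplit' : ((Finset.univ.filter fun u => ∃ t ≤ K, OrbInj f u t ∧
        far u (f^[t] u)).card : ℝ) ≤
        ((Finset.univ.filter fun u => ((B u).card : ℝ) < β).card : ℝ) +
          ((Finset.univ.filter fun u => f ∈ E1 u).card : ℝ) := by exact_mod_cast hsplit
    have hsum : (Finset.univ.filter fun k : V ⊕ V => f ∈ Sum.elim E1 E2 k).card =
        (Finset.univ.filter fun u => f ∈ E1 u).card +
          (Finset.univ.filter fun u => f ∈ E2 u).card := by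
      rw [Finset.card_filter, Fintype.sum_sum_type, Finset.card_filter, Finset.card_filter]
      exact congrArg₂ (· + ·) (Finset.sum_congr rfl fun u _ => if_congr Iff.rfl rfl rfl)
        (Finset.sum_congr rfl fun u _ => if_congr Iff.rfl rfl rfl)
    have hE2' : (Finset.univ.filter fun u => f ∈ E2 u).card =
        (Finset.univ.filter fun u => OrbInj f u K).card := rfl
    have hsum' : ((Finset.univ.filter fun k : V ⊕ V => f ∈ Sum.elim E1 E2 k).card : ℝ) =
        ((Finset.univ.filter fun u => f ∈ E1 u).card : ℝ) +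
          ((Finset.univ.filter fun u => OrbInj f u K).card : ℝ) := by
      rw [hsum, hE2']
      push_cast
      rfl
    show c ≤ _
    rw [hsum']
    have := hN₁ z
    linarith
  refine (pr_mono hp hincl).trans (hmk.trans ?_)
  refine div_le_div_of_nonneg_right ?_ hc.le
  rw [Fintype.sum_sum_type]
  have h2 : ∑ u, pr (prodW (kerW B)) (Sum.elim E1 E2 (Sum.inr u)) ≤
      (Fintype.card V : ℝ) * (1 - 1 / ρ) ^ K := by
    calc ∑ u, pr (prodW (kerW B)) (Sum.elim E1 E2 (Sum.inr u)) ≤
        ∑ _u : V, (1 - 1 / ρ) ^ K := by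
          refine Finset.sum_le_sum fun u _ => ?_
          refine (pr_mono hp ?_).trans (orbit_inj hself hρ K ∅ u)
          intro f hf
          exact ⟨hf, fun i _ => Finset.notMem_empty _⟩
      _ = (Fintype.card V : ℝ) * (1 - 1 / ρ) ^ K := by
          rw [Finset.sum_const, nsmul_eq_mul]
          rfl
  have h1 : ∑ u, pr (prodW (kerW B)) (Sum.elim E1 E2 (Sum.inl u)) ≤
      (∑ u, ((B u).card : ℝ)) / β * D := by
    have h3 : ∑ u, pr (prodW (kerW B)) (Sum.elim E1 E2 (Sum.inl u)) ≤
        ∑ u, ((B u).card : ℝ) / β * hitP B (far u) K u := by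
      refine Finset.sum_le_sum fun u _ => ?_
      have hh := hitP_nonneg hself (far u) K u
      rcases lt_or_ge ((B u).card : ℝ) β with h | h
      · have h0 : pr (prodW (kerW B)) (Sum.elim E1 E2 (Sum.inl u)) ≤ 0 := by
          have he : (Sum.elim E1 E2 (Sum.inl u) : Set (V → V)) = ∅ := by
            ext f
            simp only [Sum.elim_inl, hE1, Set.mem_empty_iff_false, iff_false]
            intro hf
            exact absurd hf.1 (not_le.2 h)
          rw [he]
          unfold pr
          simp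
        exact h0.trans (by positivity)
      · have h4 : pr (prodW (kerW B)) (Sum.elim E1 E2 (Sum.inl u)) ≤ hitP B (far u) K u := by
          refine (pr_mono hp ?_).trans (orbit_hit hself (far u) K ∅ u)
          rintro f ⟨-, t, ht, hi, hfar⟩
          exact ⟨t, ht, hi, fun i _ => Finset.notMem_empty _, hfar⟩
        refine h4.trans ?_
        have h5 : 1 ≤ ((B u).card : ℝ) / β := by rwa [one_le_div hβ]
        nlinarith
    have h6 : ∑ u, ((B u).card : ℝ) / β * hitP B (far u) K u =
        (∑ u, ((B u).card : ℝ)) / β * pr (statW B K) {w | ∃ t, far (w 0) (w t)} := by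
      rw [pr_statW, Finset.mul_sum]
      refine Finset.sum_congr rfl fun u _ => ?_
      rw [N10_from]
      exact N10_alg _ _ _ _ hβ.ne' hR.ne'
    rw [h6] at h3
    exact h3.trans (mul_le_mul_of_nonneg_left hD (div_pos hR hβ).le)
  linarith

end EA42
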