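import Pool.Agent.Lib.MP_ea42c6_pr.One.Defs
import Pool.Agent.Lib.MP_ea42c6_pr.A2
import Pool.Agent.Lib.MP_ea42c6_pr.G1

/-!
# N12 — few vertices near any vertex (coarse cells)

`m × m` cells.  `A2_irreg` with `δ = 1`: except with probability `m² · 2 exp(-(n/m²)/4)` every cell has at
most `2 n/m²` vertices (turn `pr (datW ..)` into a probability: `datW` is the law of
`datum`, whose level sets are finite in number).  If `tdist (X u) (X z) < 1/m` then
both `cdist < 1/m` and the cells of `u`, `z` are `Near 4`, so the vertices near `z`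
lie in at most 81 cells.
-/

namespace EA42

open MeasureTheory
open scoped Classical ENNReal

theorem near_count_prob (n m : ℕ) [NeZero m] (r : ℝ) (E : Set (Datum (Fin n) m)) :
    (Measure.pi fun _ : Fin n => unif) {X | datum m r X ∈ E} ≤
      ENNReal.ofReal (pr (datW n m r) E) := by
  have hfin : ∀ d, (Measure.pi fun _ : Fin n => unif) {X | datum m r X = d} ≠ ∞ := by
    intro d
    have : IsFiniteMeasure unif := by
      refine ⟨?_⟩
      unfold unif
      rw [Measure.restrict_apply_univ]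
      exact (isCompact_Icc.prod isCompact_Icc).measure_lt_top
    exact measure_ne_top _ _
  have h1 : {X : Fin n → Pt | datum m r X ∈ E} ⊆
      ⋃ d ∈ (Finset.univ.filter fun d : Datum (Fin n) m => d ∈ E), {X | datum m r X = d} := by
    intro X hX
    simp only [Set.mem_iUnion]
    exact ⟨datum m r X, Finset.mem_filter.mpr ⟨Finset.mem_univ _, hX⟩, rfl⟩
  refine (measure_mono h1).trans ((measure_biUnion_finset_le _ _).trans (le_of_eq ?_))
  unfold pr
  rw [← Finset.sum_filter, ENNReal.ofReal_sum_of_nonneg]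
  · refine Finset.sum_congr rfl fun d _ => ?_
    unfold datW
    rw [ENNReal.ofReal_toReal (hfin d)]
  · intro d _
    exact ENNReal.toReal_nonneg

theorem near_cell {m : ℕ} [NeZero m] {x y : Pt}
    (hx : x ∈ Set.Icc (0 : ℝ) 1 ×ˢ Set.Icc (0 : ℝ) 1)
    (hy : y ∈ Set.Icc (0 : ℝ) 1 ×ˢ Set.Icc (0 : ℝ) 1) (h1 : tdist x y < 1 / (m : ℝ)) :
    ∃ p : ℤ × ℤ, (-4 ≤ p.1 ∧ p.1 ≤ 4) ∧ (-4 ≤ p.2 ∧ p.2 ≤ 4) ∧
      cell m x = cell m y - ((p.1 : ZMod m), (p.2 : ZMod m)) := by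
  have hm : (0 : ℝ) < m := by exact_mod_cast Nat.pos_of_ne_zero (NeZero.ne m)
  have hr : (0 : ℝ) < 1 / (m : ℝ) := by positivity
  have hn1 := cdist_nonneg hx.1 hy.1
  have hn2 := cdist_nonneg hx.2 hy.2
  have h2 : cdist x.1 y.1 ^ 2 + cdist x.2 y.2 ^ 2 < (1 / (m : ℝ)) ^ 2 := by
    unfold tdist at h1
    rwa [Real.sqrt_lt' hr] at h1
  have h4 : (1 : ℝ) / m ≤ 4 / m := div_le_div_of_nonneg_right (by norm_num) hm.le
  have h5 : cdist x.1 y.1 < 4 / (m : ℝ) := by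
    refine lt_of_lt_of_le ?_ h4
    refine lt_of_pow_lt_pow_left₀ 2 hr.le ?_
    nlinarith
  have h6 : cdist x.2 y.2 < 4 / (m : ℝ) := by
    refine lt_of_lt_of_le ?_ h4
    refine lt_of_pow_lt_pow_left₀ 2 hr.le ?_
    nlinarith
  obtain ⟨i, hi, hi'⟩ := cell_of_cdist hx.1 hy.1 h5
  obtain ⟨j, hj, hj'⟩ := cell_of_cdist hx.2 hy.2 h6
  refine ⟨(i, j), abs_le.mp hi, abs_le.mp hj, ?_⟩
  unfold cell
  rw [hi', hj']
  ext <;> simp

theorem near_count_det {n m : ℕ} [NeZero m] (X : Fin n → Pt)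
    (hX : ∀ u, X u ∈ Set.Icc (0 : ℝ) 1 ×ˢ Set.Icc (0 : ℝ) 1) {b : ℝ}
    (hb : ∀ c : Cell m, (cnt (fun u => cell m (X u)) c : ℝ) ≤ b) (z : Fin n) :
    ((Finset.univ.filter fun u => ¬ (1 / (m : ℝ) ≤ tdist (X u) (X z))).card : ℝ) ≤ 81 * b := by
  have hm : (0 : ℝ) < m := by exact_mod_cast Nat.pos_of_ne_zero (NeZero.ne m)
  have hsub : (Finset.univ.filter fun u => ¬ (1 / (m : ℝ) ≤ tdist (X u) (X z))) ⊆
      (Finset.Icc (-4 : ℤ) 4 ×ˢ Finset.Icc (-4 : ℤ) 4).biUnion fun p =>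
        Finset.univ.filter fun u => cell m (X u) =
          cell m (X z) - ((p.1 : ZMod m), (p.2 : ZMod m)) := by
    intro u hu
    rw [Finset.mem_filter] at hu
    have h1 : tdist (X u) (X z) < 1 / (m : ℝ) := not_le.mp hu.2
    have h2 := near_cell (hX u) (hX z) h1
    rw [Finset.mem_biUnion]
    refine h2.imp fun p hp => ⟨?_, ?_⟩
    · rw [Finset.mem_product, Finset.mem_Icc, Finset.mem_Icc]
      exact ⟨hp.1, hp.2.1⟩
    · rw [Finset.mem_filter]
      exact ⟨Finset.mem_univ _, hp.2.2⟩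
  have hcard : (Finset.Icc (-4 : ℤ) 4 ×ˢ Finset.Icc (-4 : ℤ) 4).card = 81 := by
    rw [Finset.card_product, Int.card_Icc]
    rfl
  have h7 : ((Finset.univ.filter fun u => ¬ (1 / (m : ℝ) ≤ tdist (X u) (X z))).card : ℝ) ≤
      ∑ p ∈ Finset.Icc (-4 : ℤ) 4 ×ˢ Finset.Icc (-4 : ℤ) 4,
        ((Finset.univ.filter fun u => cell m (X u) =
          cell m (X z) - ((p.1 : ZMod m), (p.2 : ZMod m))).card : ℝ) := by
    have := (Finset.card_le_card hsub).trans Finset.card_biUnion_le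
    exact_mod_cast this
  refine h7.trans ?_
  calc ∑ p ∈ Finset.Icc (-4 : ℤ) 4 ×ˢ Finset.Icc (-4 : ℤ) 4,
        ((Finset.univ.filter fun u => cell m (X u) =
          cell m (X z) - ((p.1 : ZMod m), (p.2 : ZMod m))).card : ℝ)
      ≤ ∑ _p ∈ Finset.Icc (-4 : ℤ) 4 ×ˢ Finset.Icc (-4 : ℤ) 4, b := by
        refine Finset.sum_le_sum fun p _ => ?_
        exact hb _
    _ = 81 * b := by
        rw [Finset.sum_const, hcard, nsmul_eq_mul]
        norm_num

theorem near_count (n m : ℕ) [NeZero m] :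
    (Measure.pi fun _ : Fin n => unif)
      {X | ¬ ∀ z, ((Finset.univ.filter fun u => ¬ (1 / (m : ℝ) ≤ tdist (X u) (X z))).card : ℝ) ≤
        81 * (2 * ((n : ℝ) / (m : ℝ) ^ 2))} ≤
      ENNReal.ofReal ((m : ℝ) ^ 2 * (2 * Real.exp (-(1 ^ 2 * ((n : ℝ) / (m : ℝ) ^ 2) / 4)))) := by
  have hσ : SigmaFinite unif := by
    unfold unif
    infer_instance
  have hae : ∀ᵐ X ∂(Measure.pi fun _ : Fin n => unif),
      ∀ u, X u ∈ Set.Icc (0 : ℝ) 1 ×ˢ Set.Icc (0 : ℝ) 1 := by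
    rw [ae_all_iff]
    intro u
    have h1 : ∀ᵐ x ∂unif, x ∈ Set.Icc (0 : ℝ) 1 ×ˢ Set.Icc (0 : ℝ) 1 := by
      unfold unif
      exact ae_restrict_mem (measurableSet_Icc.prod measurableSet_Icc)
    exact (Measure.quasiMeasurePreserving_eval (μ := fun _ : Fin n => unif) u).ae h1
  have hle : ∀ᵐ X ∂(Measure.pi fun _ : Fin n => unif),
      X ∈ {X : Fin n → Pt | ¬ ∀ z,
        ((Finset.univ.filter fun u => ¬ (1 / (m : ℝ) ≤ tdist (X u) (X z))).card : ℝ) ≤
          81 * (2 * ((n : ℝ) / (m : ℝ) ^ 2))} →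
      X ∈ {X : Fin n → Pt | datum m 0 X ∈ {d : Datum (Fin n) m |
        ¬ Reg d.1 Finset.univ 1 ((n : ℝ) / (m : ℝ) ^ 2)}} := by
    filter_upwards [hae] with X hX hbad hreg
    apply hbad
    intro z
    refine near_count_det X hX ?_ z
    intro c
    have h2 := (abs_le.mp (hreg c (Finset.mem_univ c))).2
    have h3 : (cnt (fun u => cell m (X u)) c : ℝ) - (n : ℝ) / (m : ℝ) ^ 2 ≤
      1 * ((n : ℝ) / (m : ℝ) ^ 2) := h2
    linarith
  refine (measure_mono_ae hle).trans ?_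
  refine (near_count_prob n m 0 _).trans ?_
  exact ENNReal.ofReal_le_ofReal (A2_irreg n m 0 one_pos le_rfl)

end EA42
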