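import Pool.Agent.Lib.MP_ea42c6_pr.One.Defs
import Pool.Agent.Lib.MP_ea42c6_pr.G1

/-!
# N13 — few vertices with a small ball (fine cells), deterministic

`M = ⌈3/r⌉₊ ≤ 4/r` (`r ≤ 1`).  Two points of one cell are at distance `< 3/M ≤ r` (`touch_lt` of G1 with
equal cells), so `|ball X r u| ≥ N(cell of u)`.  The number of `u` whose cell has fewer than `β₀` points
is at most `β₀ M²` (sum over the cells).  With `β₀ = e n r²/16`: `β₀ M² ≤ e n`.  Since `|ball| ≥ 1` always,
`|ball| < max 1 β₀` implies `|ball| < β₀`.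
-/

namespace EA42

open scoped Classical

theorem small_balls {n : ℕ} (X : Fin n → Pt)
    (hX : ∀ u, X u ∈ Set.Icc (0 : ℝ) 1 ×ˢ Set.Icc (0 : ℝ) 1) {r e : ℝ} (hr : 0 < r)
    (hr1 : r ≤ 1) (he : 0 < e) :
    ((Finset.univ.filter fun u => ((ball X r u).card : ℝ) < max 1 (e * n * r ^ 2 / 16)).card : ℝ) ≤
      e * n := by
  set M : ℕ := ⌈3 / r⌉₊ with hM
  have h3r : 0 < 3 / r := by positivity
  have hMpos : 0 < M := Nat.ceil_pos.mpr h3r
  have : NeZero M := ⟨hMpos.ne'⟩
  have hMr : (0 : ℝ) < M := by exact_mod_cast hMpos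
  have h3 : 3 / (M : ℝ) ≤ r := by
    rw [div_le_comm₀ hMr hr]
    exact Nat.le_ceil _
  have h4 : (M : ℝ) ≤ 4 / r := by
    have h5 : (M : ℝ) < 3 / r + 1 := Nat.ceil_lt_add_one h3r.le
    have h6 : 1 ≤ 1 / r := by rw [le_div_iff₀ hr]; linarith
    have h7 : 4 / r = 3 / r + 1 / r := by ring
    linarith
  set β : ℝ := e * n * r ^ 2 / 16 with hβ
  have hβ0 : 0 ≤ β := by positivity
  have hsame : ∀ u v, cell M (X v) = cell M (X u) → v ∈ ball X r u := by
    intro u v h
    refine Finset.mem_filter.mpr ⟨Finset.mem_univ _, ?_⟩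
    have h1 := congrArg Prod.fst h
    have h2 := congrArg Prod.snd h
    exact touch_lt h3 (hX u) (hX v) 0 0 (by rw [Int.cast_zero, add_zero]; exact h1)
      (by rw [Int.cast_zero, add_zero]; exact h2) (by norm_num)
  set S : Finset (Fin n) := Finset.univ.filter fun u => ((ball X r u).card : ℝ) < max 1 β with hS
  have hfib : ∀ c : Cell M, ((S.filter fun u => cell M (X u) = c).card : ℝ) ≤ β := by
    intro c
    rcases (S.filter fun u => cell M (X u) = c).eq_empty_or_nonempty with hem | ⟨u, hu⟩
    · rw [hem]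
      simpa using hβ0
    · rw [Finset.mem_filter] at hu
      have hu1 : ((ball X r u).card : ℝ) < max 1 β := (Finset.mem_filter.mp hu.1).2
      have hu2 : (1 : ℝ) ≤ ((ball X r u).card : ℝ) := by
        have : 0 < (ball X r u).card := Finset.card_pos.mpr ⟨u, hsame u u rfl⟩
        exact_mod_cast this
      have hu3 : ((ball X r u).card : ℝ) < β := by
        rcases lt_max_iff.mp hu1 with h | h
        · exact absurd h (not_lt.mpr hu2)
        · exact h
      have hsub : (S.filter fun v => cell M (X v) = c) ⊆ ball X r u := by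
        intro v hv
        rw [Finset.mem_filter] at hv
        exact hsame u v (by rw [hv.2, hu.2])
      have hle : ((S.filter fun v => cell M (X v) = c).card : ℝ) ≤ ((ball X r u).card : ℝ) := by
        exact_mod_cast Finset.card_le_card hsub
      linarith
  have hcard : (S.card : ℝ) = ∑ c : Cell M, ((S.filter fun u => cell M (X u) = c).card : ℝ) := by
    have := Finset.card_eq_sum_card_fiberwise (s := S) (t := (Finset.univ : Finset (Cell M)))
      (f := fun u => cell M (X u)) (fun _ _ => Finset.mem_coe.mpr (Finset.mem_univ _))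
    rw [this]
    push_cast
    rfl
  have hcells : (Fintype.card (Cell M) : ℝ) = (M : ℝ) ^ 2 := by
    have : Fintype.card (Cell M) = M * M := by
      rw [Fintype.card_prod, ZMod.card]
    rw [this]
    push_cast
    ring
  calc (S.card : ℝ) = ∑ c : Cell M, ((S.filter fun u => cell M (X u) = c).card : ℝ) := hcard
    _ ≤ ∑ _c : Cell M, β := Finset.sum_le_sum fun c _ => hfib c
    _ = (M : ℝ) ^ 2 * β := by
      rw [Finset.sum_const, nsmul_eq_mul, Finset.card_univ, hcells]
    _ ≤ (4 / r) ^ 2 * β := mul_le_mul_of_nonneg_right (pow_le_pow_left₀ hMr.le h4 2) hβ0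
    _ = e * n := by
      rw [hβ]
      field_simp
      ring

end EA42
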