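import Pool.Agent.Lib.MP_ea42c6_pr.One.Defs
import Pool.Agent.Lib.MP_ea42c6_pr.S1a

/-!
# N14 — ball sizes

`star_le`: for a vertex `u` and a set `S` of other vertices the probability that all `v ∈ S` are at
distance `< r` from `u` is at most `(16 r²)^|S|`: given `X u ∈ [0,1]²` these are independent events of
probability at most `16 r²` (`unif_ball`).  Route: independence of coordinates as in the
proof of `chain_le` (S1a), or induction on `S` integrating out one coordinate
(`MeasureTheory.lmarginal`), or `measurePreserving_piEquivPiSubtypeProd` / `piFinSuccAbove`.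
`ball_max`: `|ball u| > k+1` gives a set `S` of `k` other vertices in the ball:
`C(n,k) (16 r²)^k ≤ (n^k/k!)(16 r²)^k ≤ (48 n r²/k)^k ≤ 3^(-k) ≤ 1/n²` if `k ≥ 144 n r²`, `k ≥ 2 log n`
(`k! ≥ (k/3)^k`, see P4; `3^(-k) ≤ exp(-k)`); union over `u` (`k = 0` forces `n ≤ 1`: then
`|ball| ≤ 1`, the event is empty).
`ball_sum`: `E ∑ |ball u| ≤ n + n² 16 r²`, Markov.
-/

namespace EA42

open MeasureTheory
open scoped Classical ENNReal

theorem N14_star (k : ℕ) {r : ℝ} (hr : 0 ≤ r) :
    (Measure.pi fun _ : Fin (k + 1) => unif)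
      {X | ∀ i : Fin k, tdist (X 0) (X i.succ) < r} ≤
      ENNReal.ofReal (16 * r ^ 2) ^ k := by
  have hmp := measurePreserving_piFinSuccAbove (fun _ : Fin (k + 1) => unif) 0
  set D : Set (Pt × (Fin k → Pt)) := {z | ∀ i : Fin k, tdist z.1 (z.2 i) < r} with hD
  have hDm : MeasurableSet D := by
    have e : D = ⋂ i : Fin k, {z : Pt × (Fin k → Pt) | tdist z.1 (z.2 i) < r} := by
      ext z
      simp only [hD, Set.mem_ofPred_eq, Set.mem_iInter]
    rw [e]
    refine MeasurableSet.iInter fun i => ?_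
    have h3 : Measurable fun z : Pt × (Fin k → Pt) => (z.1, z.2 i) :=
      measurable_fst.prodMk ((measurable_pi_apply i).comp measurable_snd)
    exact measurableSet_lt (measurable_tdist.comp h3) measurable_const
  have hpre : {X : Fin (k + 1) → Pt | ∀ i : Fin k, tdist (X 0) (X i.succ) < r} =
      (MeasurableEquiv.piFinSuccAbove (fun _ => Pt) 0) ⁻¹' D := by
    ext X
    have hval : MeasurableEquiv.piFinSuccAbove (fun _ : Fin (k + 1) => Pt) 0 X =
        (X 0, fun j : Fin k => X j.succ) := by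
      simp [MeasurableEquiv.piFinSuccAbove, Fin.tail_def]
    rw [Set.mem_preimage, hval]
    rfl
  rw [hpre, hmp.measure_preimage hDm.nullMeasurableSet, Measure.prod_apply hDm]
  have hae : ∀ᵐ x ∂unif, x ∈ Set.Icc (0 : ℝ) 1 ×ˢ Set.Icc (0 : ℝ) 1 := by
    unfold unif
    exact ae_restrict_mem (measurableSet_Icc.prod measurableSet_Icc)
  calc ∫⁻ x, (Measure.pi fun _ : Fin k => unif) (Prod.mk x ⁻¹' D) ∂unif
      ≤ ∫⁻ _x, ENNReal.ofReal (16 * r ^ 2) ^ k ∂unif := by
        refine lintegral_mono_ae ?_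
        filter_upwards [hae] with x hx
        have e : Prod.mk x ⁻¹' D = Set.pi Set.univ (fun _ : Fin k => {y | tdist x y < r}) := by
          ext Z
          simp [hD]
        rw [e, Measure.pi_pi, Finset.prod_const, Finset.card_univ, Fintype.card_fin]
        exact pow_le_pow_left' (unif_ball hr x hx) k
    _ = ENNReal.ofReal (16 * r ^ 2) ^ k := by
        rw [lintegral_const, measure_univ, mul_one]

theorem star_le {n : ℕ} {r : ℝ} (hr : 0 ≤ r) (u : Fin n) (S : Finset (Fin n)) (hu : u ∉ S) :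
    (Measure.pi fun _ : Fin n => unif) {X | ∀ v ∈ S, tdist (X u) (X v) < r} ≤
      ENNReal.ofReal (16 * r ^ 2) ^ S.card := by
  set p : Fin (S.card + 1) → Fin n := Fin.cons u (fun i => (S.equivFin.symm i : Fin n)) with hp
  have hpi : Function.Injective p := by
    rw [hp, Fin.cons_injective_iff]
    refine ⟨?_, fun i j hij => S.equivFin.symm.injective (Subtype.ext hij)⟩
    rintro ⟨i, hi⟩
    exact hu (hi ▸ (S.equivFin.symm i).2)
  have hset : {X : Fin n → Pt | ∀ v ∈ S, tdist (X u) (X v) < r} =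
      {X : Fin n → Pt | ∀ i : Fin S.card, tdist (X (p 0)) (X (p i.succ)) < r} := by
    ext X
    simp only [Set.mem_ofPred_eq, hp, Fin.cons_zero, Fin.cons_succ]
    constructor
    · intro h i
      exact h _ (S.equivFin.symm i).2
    · intro h v hv
      have h1 := h (S.equivFin ⟨v, hv⟩)
      rwa [Equiv.symm_apply_apply] at h1
  have hind : ProbabilityTheory.iIndepFun (fun (i : Fin n) (X : Fin n → Pt) => X i)
      (Measure.pi fun _ : Fin n => unif) :=
    ProbabilityTheory.iIndepFun_pi (X := fun (_ : Fin n) (x : Pt) => x)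
      (fun _ => measurable_id.aemeasurable)
  have hind2 := hind.precomp hpi
  have hmap := (ProbabilityTheory.iIndepFun_iff_map_fun_eq_pi_map
    (fun i => (measurable_pi_apply (p i)).aemeasurable)).mp hind2
  have hev : ∀ i : Fin (S.card + 1), (Measure.pi fun _ : Fin n => unif).map
      (fun X : Fin n → Pt => X (p i)) = unif := fun i =>
    (measurePreserving_eval (fun _ : Fin n => unif) (p i)).map_eq
  have hmap2 : (Measure.pi fun _ : Fin n => unif).map (fun (X : Fin n → Pt) i => X (p i)) =
      Measure.pi fun _ : Fin (S.card + 1) => unif := by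
    rw [← funext hev]
    exact hmap
  have hBm : MeasurableSet {X : Fin (S.card + 1) → Pt |
      ∀ i : Fin S.card, tdist (X 0) (X i.succ) < r} := by
    have e : {X : Fin (S.card + 1) → Pt | ∀ i : Fin S.card, tdist (X 0) (X i.succ) < r} =
        ⋂ i : Fin S.card, {X : Fin (S.card + 1) → Pt | tdist (X 0) (X i.succ) < r} := by
      ext X
      simp only [Set.mem_ofPred_eq, Set.mem_iInter]
    rw [e]
    exact MeasurableSet.iInter fun i => S1a_meas r _ _
  have h := N14_star S.card hr
  rw [← hmap2, Measure.map_apply (measurable_pi_iff.mpr fun i => measurable_pi_apply (p i)) hBm] at h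
  rw [hset]
  exact h

theorem N14_fact (j : ℕ) : (j : ℝ) ^ j ≤ 3 ^ j * (j.factorial : ℝ) := by
  have h1 := Real.pow_div_factorial_le_exp (j : ℝ) (Nat.cast_nonneg j) j
  have hf : (0 : ℝ) < (j.factorial : ℝ) := by exact_mod_cast Nat.factorial_pos j
  have h2 : Real.exp (j : ℝ) ≤ 3 ^ j := by
    rw [← Real.exp_one_rpow, Real.rpow_natCast]
    exact pow_le_pow_left₀ (Real.exp_pos 1).le (by linarith [Real.exp_one_lt_d9]) j
  rw [div_le_iff₀ hf] at h1
  nlinarith

theorem N14_num {n k : ℕ} (hn : 0 < n) {r : ℝ} (hr : 0 ≤ r) (hk0 : 0 < k)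
    (hk : 144 * n * r ^ 2 ≤ k) (hk2 : 2 * Real.log n ≤ k) :
    (n : ℝ) * ((n.choose k : ℝ) * (16 * r ^ 2) ^ k) ≤ 1 / n := by
  have hn' : (0 : ℝ) < n := by exact_mod_cast hn
  have hk' : (0 : ℝ) < k := by exact_mod_cast hk0
  have hf : (0 : ℝ) < (k.factorial : ℝ) := by exact_mod_cast Nat.factorial_pos k
  have h1 : (n.choose k : ℝ) ≤ (n : ℝ) ^ k / (k.factorial : ℝ) := Nat.choose_le_pow_div k n
  have h2 : (n : ℝ) ^ k / (k.factorial : ℝ) * (16 * r ^ 2) ^ k ≤ (1 / 3) ^ k := by
    have h3 : (n : ℝ) ^ k * (16 * r ^ 2) ^ k = (n * (16 * r ^ 2)) ^ k := (mul_pow _ _ _).symm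
    have h4 : (n : ℝ) * (16 * r ^ 2) ≤ (k : ℝ) / 9 := by linarith
    have h5 : ((n : ℝ) * (16 * r ^ 2)) ^ k ≤ ((k : ℝ) / 9) ^ k :=
      pow_le_pow_left₀ (by positivity) h4 k
    have h6 : ((k : ℝ) / 9) ^ k ≤ (1 / 3) ^ k * (k.factorial : ℝ) := by
      have h7 := N14_fact k
      have h8 : ((k : ℝ) / 9) ^ k = (1 / 9) ^ k * (k : ℝ) ^ k := by
        rw [← mul_pow]; congr 1; ring
      have h9 : ((1 : ℝ) / 3) ^ k * (k.factorial : ℝ) = (1 / 9) ^ k * (3 ^ k * (k.factorial : ℝ)) := by
        rw [← mul_assoc, ← mul_pow]; norm_num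
      rw [h8, h9]
      exact mul_le_mul_of_nonneg_left h7 (by positivity)
    rw [div_mul_eq_mul_div, h3, div_le_iff₀ hf]
    exact h5.trans h6
  have h10 : ((1 : ℝ) / 3) ^ k ≤ Real.exp (-(k : ℝ)) := by
    have h11 : Real.exp (-(k : ℝ)) = (Real.exp (-1)) ^ k := by
      rw [← Real.exp_nat_mul]; congr 1; ring
    rw [h11]
    refine pow_le_pow_left₀ (by norm_num) ?_ k
    rw [Real.exp_neg, one_div]
    exact inv_anti₀ (Real.exp_pos 1) (by linarith [Real.exp_one_lt_d9])
  have h12 : Real.exp (-(k : ℝ)) ≤ 1 / (n : ℝ) ^ 2 := by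
    calc Real.exp (-(k : ℝ)) ≤ Real.exp (-(2 * Real.log n)) := Real.exp_le_exp.2 (by linarith)
      _ = 1 / (n : ℝ) ^ 2 := by
        rw [Real.exp_neg, two_mul, Real.exp_add, Real.exp_log hn', one_div, pow_two]
  calc (n : ℝ) * ((n.choose k : ℝ) * (16 * r ^ 2) ^ k)
      ≤ n * ((n : ℝ) ^ k / (k.factorial : ℝ) * (16 * r ^ 2) ^ k) := by
        refine mul_le_mul_of_nonneg_left ?_ hn'.le
        exact mul_le_mul_of_nonneg_right h1 (by positivity)
    _ ≤ n * (1 / (n : ℝ) ^ 2) :=
        mul_le_mul_of_nonneg_left (h2.trans (h10.trans h12)) hn'.le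
    _ = 1 / n := by field_simp

theorem ball_max {n : ℕ} (hn : 0 < n) {r : ℝ} (hr : 0 ≤ r) (k : ℕ) (hk : 144 * n * r ^ 2 ≤ k)
    (hk2 : 2 * Real.log n ≤ k) :
    (Measure.pi fun _ : Fin n => unif) {X | ¬ ∀ u, ((ball X r u).card : ℝ) ≤ (k : ℝ) + 1} ≤
      ENNReal.ofReal (1 / n) := by
  rcases Nat.eq_zero_or_pos k with hk0 | hk0
  · subst hk0
    have hn' : (1 : ℝ) ≤ n := by exact_mod_cast hn
    have hlog : Real.log n ≤ 0 := by
      have : (2 : ℝ) * Real.log n ≤ 0 := by simpa using hk2
      linarith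
    have hn1 : (n : ℝ) ≤ 1 := by
      by_contra hcon
      exact absurd hlog (not_le.2 (Real.log_pos (not_le.1 hcon)))
    have hn2 : n ≤ 1 := by exact_mod_cast hn1
    have hem : {X : Fin n → Pt | ¬ ∀ u, ((ball X r u).card : ℝ) ≤ ((0 : ℕ) : ℝ) + 1} = ∅ := by
      ext X
      simp only [Set.mem_ofPred_eq, Set.mem_empty_iff_false, iff_false, not_not]
      intro u
      have h1 : (ball X r u).card ≤ n := by
        refine (Finset.card_le_univ _).trans ?_
        rw [Fintype.card_fin]
      have h2 : ((ball X r u).card : ℝ) ≤ n := by exact_mod_cast h1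
      have h3 : (((0 : ℕ) : ℝ)) = 0 := Nat.cast_zero
      linarith
    rw [hem, measure_empty]
    exact zero_le
  · have hsub : {X : Fin n → Pt | ¬ ∀ u, ((ball X r u).card : ℝ) ≤ (k : ℝ) + 1} ⊆
        ⋃ u ∈ (Finset.univ : Finset (Fin n)), ⋃ S ∈ (Finset.powersetCard k
          (Finset.univ : Finset (Fin n))).filter (fun S => u ∉ S),
          {X : Fin n → Pt | ∀ v ∈ S, tdist (X u) (X v) < r} := by
      intro X hX
      simp only [Set.mem_ofPred_eq, not_forall, not_le] at hX
      obtain ⟨u, hu⟩ := hX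
      have hu' : k + 1 < (ball X r u).card := by exact_mod_cast hu
      have hc : k ≤ ((ball X r u).erase u).card := by
        have := Finset.pred_card_le_card_erase (s := ball X r u) (a := u)
        omega
      obtain ⟨S, hS, hSc⟩ := Finset.exists_subset_card_eq hc
      simp only [Set.mem_iUnion]
      refine ⟨u, Finset.mem_univ u, S, ?_, ?_⟩
      · rw [Finset.mem_filter, Finset.mem_powersetCard]
        exact ⟨⟨Finset.subset_univ _, hSc⟩, fun h => (Finset.mem_erase.1 (hS h)).1 rfl⟩
      · intro v hv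
        have h1 := (Finset.mem_erase.1 (hS hv)).2
        unfold ball at h1
        exact (Finset.mem_filter.1 h1).2
    refine (measure_mono hsub).trans ?_
    refine (measure_biUnion_finset_le _ _).trans ?_
    have hone : ∀ u : Fin n, (Measure.pi fun _ : Fin n => unif)
        (⋃ S ∈ (Finset.powersetCard k (Finset.univ : Finset (Fin n))).filter (fun S => u ∉ S),
          {X : Fin n → Pt | ∀ v ∈ S, tdist (X u) (X v) < r}) ≤
        ENNReal.ofReal ((n.choose k : ℝ) * (16 * r ^ 2) ^ k) := by
      intro u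
      refine (measure_biUnion_finset_le _ _).trans ?_
      calc ∑ S ∈ (Finset.powersetCard k (Finset.univ : Finset (Fin n))).filter (fun S => u ∉ S),
            (Measure.pi fun _ : Fin n => unif) {X : Fin n → Pt | ∀ v ∈ S, tdist (X u) (X v) < r}
          ≤ ∑ S ∈ (Finset.powersetCard k (Finset.univ : Finset (Fin n))).filter (fun S => u ∉ S),
            ENNReal.ofReal (16 * r ^ 2) ^ k := by
            refine Finset.sum_le_sum fun S hS => ?_
            rw [Finset.mem_filter, Finset.mem_powersetCard] at hS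
            have h1 := star_le hr u S hS.2
            rwa [hS.1.2] at h1
        _ ≤ ∑ S ∈ Finset.powersetCard k (Finset.univ : Finset (Fin n)),
            ENNReal.ofReal (16 * r ^ 2) ^ k :=
            Finset.sum_le_sum_of_subset (Finset.filter_subset _ _)
        _ = ENNReal.ofReal ((n.choose k : ℝ) * (16 * r ^ 2) ^ k) := by
            rw [Finset.sum_const, Finset.card_powersetCard, Finset.card_univ, Fintype.card_fin,
              nsmul_eq_mul, ENNReal.ofReal_mul (Nat.cast_nonneg _), ENNReal.ofReal_natCast,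
              ENNReal.ofReal_pow (by positivity)]
    calc ∑ u : Fin n, _ ≤ ∑ _u : Fin n, ENNReal.ofReal ((n.choose k : ℝ) * (16 * r ^ 2) ^ k) :=
          Finset.sum_le_sum fun u _ => hone u
      _ = ENNReal.ofReal ((n : ℝ) * ((n.choose k : ℝ) * (16 * r ^ 2) ^ k)) := by
          rw [Finset.sum_const, Finset.card_univ, Fintype.card_fin, nsmul_eq_mul,
            ENNReal.ofReal_mul (p := (n : ℝ)) (Nat.cast_nonneg _), ENNReal.ofReal_natCast]
      _ ≤ ENNReal.ofReal (1 / n) := ENNReal.ofReal_le_ofReal (N14_num hn hr hk0 hk hk2)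

theorem ball_sum {n : ℕ} (hn : 0 < n) {r A : ℝ} (hr : 0 ≤ r) (hA : 0 < A) :
    (Measure.pi fun _ : Fin n => unif)
      {X | ¬ (∑ u, ((ball X r u).card : ℝ) ≤ A * ((1 + 16 * n * r ^ 2) * n))} ≤
      ENNReal.ofReal (1 / A) := by
  have hn' : (0 : ℝ) < n := by exact_mod_cast hn
  set m : ℝ := (1 + 16 * n * r ^ 2) * n with hm
  have hm0 : 0 < m := by rw [hm]; positivity
  set f : (Fin n → Pt) → ℝ≥0∞ := fun X => ∑ u : Fin n, ∑ v : Fin n,
    ({X : Fin n → Pt | tdist (X u) (X v) < r}.indicator 1 X) with hf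
  have hfm : Measurable f := by
    refine Finset.measurable_sum _ fun u _ => Finset.measurable_sum _ fun v _ => ?_
    exact measurable_one.indicator (S1a_meas r u v)
  have hfval : ∀ X : Fin n → Pt, f X = ENNReal.ofReal (∑ u, ((ball X r u).card : ℝ)) := by
    intro X
    rw [ENNReal.ofReal_sum_of_nonneg (fun u _ => Nat.cast_nonneg _)]
    refine Finset.sum_congr rfl fun u _ => ?_
    rw [ENNReal.ofReal_natCast]
    unfold ball
    rw [Finset.card_filter, Nat.cast_sum]
    refine Finset.sum_congr rfl fun v _ => ?_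
    by_cases h : tdist (X u) (X v) < r
    · rw [if_pos h, Set.indicator_of_mem (show X ∈ {X : Fin n → Pt | tdist (X u) (X v) < r} from h)]
      simp
    · rw [if_neg h, Set.indicator_of_notMem (show X ∉ {X : Fin n → Pt | tdist (X u) (X v) < r} from h)]
      simp
  have hint : ∫⁻ X, f X ∂(Measure.pi fun _ : Fin n => unif) ≤ ENNReal.ofReal m := by
    rw [hf]
    simp only []
    rw [lintegral_finsetSum _ (fun u _ => Finset.measurable_sum _ fun v _ =>
      measurable_one.indicator (S1a_meas r u v))]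
    have h1 : ∀ u : Fin n, ∫⁻ X, ∑ v : Fin n,
        ({X : Fin n → Pt | tdist (X u) (X v) < r}.indicator 1 X)
          ∂(Measure.pi fun _ : Fin n => unif) ≤ ENNReal.ofReal (1 + n * (16 * r ^ 2)) := by
      intro u
      rw [lintegral_finsetSum _ (fun v _ => measurable_one.indicator (S1a_meas r u v))]
      calc ∑ v : Fin n, ∫⁻ X, ({X : Fin n → Pt | tdist (X u) (X v) < r}.indicator 1 X)
            ∂(Measure.pi fun _ : Fin n => unif)
          ≤ ∑ v : Fin n, ((if v = u then 1 else 0) + ENNReal.ofReal (16 * r ^ 2)) := by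
            refine Finset.sum_le_sum fun v _ => ?_
            rw [lintegral_indicator_one (S1a_meas r u v)]
            by_cases hv : v = u
            · rw [if_pos hv]
              exact prob_le_one.trans le_self_add
            · rw [if_neg hv, zero_add]
              have h2 := star_le hr u {v} (by
                rw [Finset.mem_singleton]; exact fun h => hv h.symm)
              rw [Finset.card_singleton, pow_one] at h2
              refine le_trans (measure_mono ?_) h2
              intro X hX w hw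
              rw [Finset.mem_singleton] at hw
              rw [hw]; exact hX
        _ = ENNReal.ofReal (1 + n * (16 * r ^ 2)) := by
            rw [Finset.sum_add_distrib, Finset.sum_ite_eq' Finset.univ u (fun _ => (1 : ℝ≥0∞)),
              if_pos (Finset.mem_univ u), Finset.sum_const, Finset.card_univ, Fintype.card_fin,
              nsmul_eq_mul, ENNReal.ofReal_add zero_le_one (by positivity), ENNReal.ofReal_one,
              ENNReal.ofReal_mul (Nat.cast_nonneg _), ENNReal.ofReal_natCast]
    calc ∑ u : Fin n, _ ≤ ∑ _u : Fin n, ENNReal.ofReal (1 + n * (16 * r ^ 2)) :=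
          Finset.sum_le_sum fun u _ => h1 u
      _ = ENNReal.ofReal m := by
          rw [Finset.sum_const, Finset.card_univ, Fintype.card_fin, nsmul_eq_mul, hm,
            ← ENNReal.ofReal_natCast, ← ENNReal.ofReal_mul (Nat.cast_nonneg _)]
          congr 1
          ring
  have hsub : {X : Fin n → Pt | ¬ (∑ u, ((ball X r u).card : ℝ) ≤ A * m)} ⊆
      {X | ENNReal.ofReal (A * m) ≤ f X} := by
    intro X hX
    have hX' : A * m < ∑ u, ((ball X r u).card : ℝ) := not_le.1 hX
    show ENNReal.ofReal (A * m) ≤ f X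
    rw [hfval]
    exact ENNReal.ofReal_le_ofReal hX'.le
  refine (measure_mono hsub).trans ?_
  have hAm : 0 < A * m := mul_pos hA hm0
  refine (meas_ge_le_lintegral_div hfm.aemeasurable (by
    rw [Ne, ENNReal.ofReal_eq_zero]; exact not_le.2 hAm) ENNReal.ofReal_ne_top).trans ?_
  calc (∫⁻ X, f X ∂(Measure.pi fun _ : Fin n => unif)) / ENNReal.ofReal (A * m)
      ≤ ENNReal.ofReal m / ENNReal.ofReal (A * m) := ENNReal.div_le_div_right hint _
    _ = ENNReal.ofReal (1 / A) := by
        rw [← ENNReal.ofReal_div_of_pos hAm]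
        congr 1
        field_simp

end EA42
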