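import Pool.Agent.Lib.MP_ea42c6_pr.One.N5
import Pool.Agent.Lib.MP_ea42c6_pr.One.N10
import Pool.Agent.Lib.MP_ea42c6_pr.One.N11
import Pool.Agent.Lib.MP_ea42c6_pr.One.N12
import Pool.Agent.Lib.MP_ea42c6_pr.One.N13
import Pool.Agent.Lib.MP_ea42c6_pr.One.N14

/-!
# N15 — the bound for one `n`

`Good X`: all `X u ∈ [0,1]²`; the bound of `near_count`; `∑ |ball| ≤ A (1 + 16 n r²) n`; `|ball| ≤ k+1`.
For `Good X` use `fixed_le` with `B = ball X r`, `far u v = (1/m ≤ tdist (X u) (X v))`, `ρ = k+1`,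
`β = max 1 ((ε/4) n r²/16)`, `N₁ = 162 n/m² ≤ (ε/4) n` (by `hm`), `N₂ = (ε/4) n` (`small_balls`, `e = ε/4`),
`c = (ε/2) n`, `D = 64 K r² m²` (`displacement` with `δ = 1/m`).
`R/β ≤ A (1 + 16 x) n/max 1 (ε x/64) ≤ A n (1 + 1024/ε)` with `x = n r²`: if `ε x ≤ 64` then
`1 + 16 x ≤ 1 + 1024/ε`; otherwise `(1 + 16 x) 64/(ε x) = 64/(ε x) + 1024/ε ≤ 1 + 1024/ε`.
So `b = (n (1 - 1/(k+1))^K + A n (1 + 1024/ε) 64 K r² m²)/((ε/2) n)` and
`(1 - 1/(k+1))^K ≤ exp(-K/(k+1))`.  `law_one_le`, union bound for `¬ Good` (almost all `X` are in the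
square, see A3_ae).
-/

namespace EA42

open MeasureTheory
open scoped Classical ENNReal

theorem N15_ratio {x ε : ℝ} (hx : 0 ≤ x) (hε : 0 < ε) (hε1 : ε ≤ 1) :
    (1 + 16 * x) / max 1 (ε / 4 * x / 16) ≤ 1 + 1024 / ε := by
  have hm : 0 < max 1 (ε / 4 * x / 16) := lt_of_lt_of_le one_pos (le_max_left _ _)
  rw [div_le_iff₀ hm]
  have h1 : (1 : ℝ) ≤ max 1 (ε / 4 * x / 16) := le_max_left _ _
  have h2 : ε / 4 * x / 16 ≤ max 1 (ε / 4 * x / 16) := le_max_right _ _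
  have h3 : 1024 / ε * (ε / 4 * x / 16) ≤ 1024 / ε * max 1 (ε / 4 * x / 16) :=
    mul_le_mul_of_nonneg_left h2 (by positivity)
  have h4 : 1024 / ε * (ε / 4 * x / 16) = 16 * x := by field_simp; ring
  rw [h4] at h3
  rw [add_mul, one_mul]
  linarith

theorem one_n {n m K k : ℕ} (hn : 0 < n) [NeZero m] {r ε A : ℝ} (hr : 0 < r)
    (hε : 0 < ε) (hε1 : ε ≤ 1) (hA : 0 < A) (hm : 648 / ε ≤ (m : ℝ) ^ 2)
    (hrm : 16 * r ≤ 1 / (m : ℝ)) (hk : 144 * n * r ^ 2 ≤ k) (hk2 : 2 * Real.log n ≤ k) :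
    probGiant (PMF.pure 1) n r ε ≤ ENNReal.ofReal
      ((m : ℝ) ^ 2 * (2 * Real.exp (-(1 ^ 2 * ((n : ℝ) / (m : ℝ) ^ 2) / 4))) + 1 / A + 1 / n +
        2 / ε * (Real.exp (-(K / ((k : ℝ) + 1))) +
          A * (1 + 1024 / ε) * (64 * K * r ^ 2 * (m : ℝ) ^ 2))) := by
  have hn' : (0 : ℝ) < n := by exact_mod_cast hn
  have hm0 : (0 : ℝ) < m := by exact_mod_cast Nat.pos_of_ne_zero (NeZero.ne m)
  have hm1 : (1 : ℝ) ≤ m := by exact_mod_cast Nat.one_le_iff_ne_zero.2 (NeZero.ne m)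
  have hinv : 1 / (m : ℝ) ≤ 1 := by
    rw [div_le_one hm0]; exact hm1
  have hr1 : r ≤ 1 := by linarith
  have : NeZero n := ⟨hn.ne'⟩
  set Q1 : (Fin n → Pt) → Prop := fun X => ∀ u, X u ∈ Set.Icc (0 : ℝ) 1 ×ˢ Set.Icc (0 : ℝ) 1
    with hQ1
  set Q2 : (Fin n → Pt) → Prop := fun X => ∀ z,
    ((Finset.univ.filter fun u => ¬ (1 / (m : ℝ) ≤ tdist (X u) (X z))).card : ℝ) ≤
        81 * (2 * ((n : ℝ) / (m : ℝ) ^ 2)) with hQ2
  set Q3 : (Fin n → Pt) → Prop := fun X =>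
    ∑ u, ((ball X r u).card : ℝ) ≤ A * ((1 + 16 * n * r ^ 2) * n) with hQ3
  set Q4 : (Fin n → Pt) → Prop := fun X => ∀ u, ((ball X r u).card : ℝ) ≤ (k : ℝ) + 1 with hQ4
  set b : ℝ := 2 / ε * (Real.exp (-(K / ((k : ℝ) + 1))) +
          A * (1 + 1024 / ε) * (64 * K * r ^ 2 * (m : ℝ) ^ 2)) with hb
  have hfix : ∀ X : Fin n → Pt, (Q1 X ∧ Q2 X ∧ Q3 X ∧ Q4 X) →
      pr (prodW (kerW (ball X r))) {f | ε * (n : ℝ) ≤ (largest (mapG f) : ℝ)} ≤ b := by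
    rintro X ⟨h1, h2, h3, h4⟩
    have hN₂ := small_balls X h1 hr hr1 (e := ε / 4) (by positivity)
    have hβ : (0 : ℝ) < max 1 (ε / 4 * n * r ^ 2 / 16) := lt_of_lt_of_le one_pos (le_max_left _ _)
    have hD := displacement X h1 hr hrm hinv K
    have hmain := fixed_le (symB_ball X hr) (fun u v => 1 / (m : ℝ) ≤ tdist (X u) (X v)) K
      hβ (c := ε / 2 * n) (by positivity) h4 h2 hN₂ hD
    have hincl : {f : Fin n → Fin n | ε * (n : ℝ) ≤ (largest (mapG f) : ℝ)} ⊆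
        {f | 81 * (2 * ((n : ℝ) / (m : ℝ) ^ 2)) + ε / 4 * n + ε / 2 * n ≤
          (largest (mapG f) : ℝ)} := by
      intro f hf
      refine le_trans ?_ (show ε * (n : ℝ) ≤ (largest (mapG f) : ℝ) from hf)
      have h5 : 81 * (2 * ((n : ℝ) / (m : ℝ) ^ 2)) ≤ ε / 4 * n := by
        have h6 : 648 ≤ ε * (m : ℝ) ^ 2 := by
          rwa [div_le_iff₀ hε, mul_comm] at hm
        have h7 : 0 < (m : ℝ) ^ 2 := by positivity
        rw [show 81 * (2 * ((n : ℝ) / (m : ℝ) ^ 2)) = 162 * n / (m : ℝ) ^ 2 by ring,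
          div_le_iff₀ h7]
        nlinarith
      linarith
    have hself : ∀ u, u ∈ ball X r u := (symB_ball X hr).self
    have hp : IsProb (prodW (kerW (ball X r))) := isProb_prodW fun u => isProb_kerW hself u
    refine (pr_mono hp hincl).trans (hmain.trans ?_)
    rw [Fintype.card_fin]
    have hk1 : (0 : ℝ) < (k : ℝ) + 1 := by positivity
    have hexp : (1 - 1 / ((k : ℝ) + 1)) ^ K ≤ Real.exp (-(K / ((k : ℝ) + 1))) := by
      have h8 : 1 - 1 / ((k : ℝ) + 1) ≤ Real.exp (-(1 / ((k : ℝ) + 1))) := by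
        have := Real.add_one_le_exp (-(1 / ((k : ℝ) + 1)))
        linarith
      have h9 : 0 ≤ 1 - 1 / ((k : ℝ) + 1) := by
        rw [sub_nonneg, div_le_one hk1]
        linarith [(Nat.cast_nonneg k : (0 : ℝ) ≤ k)]
      calc (1 - 1 / ((k : ℝ) + 1)) ^ K ≤ Real.exp (-(1 / ((k : ℝ) + 1))) ^ K :=
            pow_le_pow_left₀ h9 h8 K
        _ = Real.exp (-(K / ((k : ℝ) + 1))) := by
            rw [← Real.exp_nat_mul]
            congr 1
            ring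
    have hR : (∑ u, ((ball X r u).card : ℝ)) / max 1 (ε / 4 * n * r ^ 2 / 16) ≤
        A * (1 + 1024 / ε) * n := by
      rw [div_le_iff₀ hβ]
      refine le_trans h3 ?_
      have h10 := N15_ratio (x := (n : ℝ) * r ^ 2) (by positivity) hε hε1
      rw [div_le_iff₀ (lt_of_lt_of_le one_pos (le_max_left _ _))] at h10
      have h11 : ε / 4 * (n * r ^ 2) / 16 = ε / 4 * n * r ^ 2 / 16 := by ring
      rw [h11] at h10
      calc A * ((1 + 16 * n * r ^ 2) * n) = A * n * (1 + 16 * (n * r ^ 2)) := by ring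
        _ ≤ A * n * ((1 + 1024 / ε) * max 1 (ε / 4 * n * r ^ 2 / 16)) := by gcongr
        _ = A * (1 + 1024 / ε) * n * max 1 (ε / 4 * n * r ^ 2 / 16) := by ring
    have hD0 : 0 ≤ 64 * K * r ^ 2 / (1 / (m : ℝ)) ^ 2 := by positivity
    have hc : 0 < ε / 2 * (n : ℝ) := by positivity
    rw [div_le_iff₀ hc, hb]
    have h12 : 64 * K * r ^ 2 / (1 / (m : ℝ)) ^ 2 = 64 * K * r ^ 2 * (m : ℝ) ^ 2 := by
      field_simp
    rw [h12] at hD0 ⊢
    calc (n : ℝ) * (1 - 1 / ((k : ℝ) + 1)) ^ K +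
          (∑ u, ((ball X r u).card : ℝ)) / max 1 (ε / 4 * n * r ^ 2 / 16) *
            (64 * K * r ^ 2 * (m : ℝ) ^ 2)
        ≤ (n : ℝ) * Real.exp (-(K / ((k : ℝ) + 1))) +
          A * (1 + 1024 / ε) * n * (64 * K * r ^ 2 * (m : ℝ) ^ 2) := by gcongr
      _ = 2 / ε * (Real.exp (-(K / ((k : ℝ) + 1))) +
          A * (1 + 1024 / ε) * (64 * K * r ^ 2 * (m : ℝ) ^ 2)) * (ε / 2 * n) := by
          field_simp
  have hlaw := law_one_le (n := n) hr (fun G => ε * (n : ℝ) ≤ (largest G : ℝ))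
    (fun X => Q1 X ∧ Q2 X ∧ Q3 X ∧ Q4 X) hfix
  refine le_trans hlaw ?_
  have hb0 : 0 ≤ b := by rw [hb]; positivity
  have hbad : (Measure.pi fun _ : Fin n => unif) {X | ¬ (Q1 X ∧ Q2 X ∧ Q3 X ∧ Q4 X)} ≤
      ENNReal.ofReal ((m : ℝ) ^ 2 * (2 * Real.exp (-(1 ^ 2 * ((n : ℝ) / (m : ℝ) ^ 2) / 4))))
        + ENNReal.ofReal (1 / A) + ENNReal.ofReal (1 / n) := by
    have hsub : {X : Fin n → Pt | ¬ (Q1 X ∧ Q2 X ∧ Q3 X ∧ Q4 X)} ⊆
        {X | ¬ Q1 X} ∪ ({X | ¬ Q2 X} ∪ {X | ¬ Q3 X} ∪ {X | ¬ Q4 X}) := by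
      intro X hX
      by_contra hcon
      simp only [Set.mem_union, Set.mem_ofPred_eq, not_or, not_not] at hcon
      exact hX ⟨hcon.1, hcon.2.1.1, hcon.2.1.2, hcon.2.2⟩
    have hz : (Measure.pi fun _ : Fin n => unif) {X | ¬ Q1 X} = 0 := by
      have hae : ∀ᵐ X ∂(Measure.pi fun _ : Fin n => unif),
          ∀ u, X u ∈ Set.Icc (0 : ℝ) 1 ×ˢ Set.Icc (0 : ℝ) 1 := by
        rw [ae_all_iff]
        intro u
        have h1 : ∀ᵐ x ∂unif, x ∈ Set.Icc (0 : ℝ) 1 ×ˢ Set.Icc (0 : ℝ) 1 := by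
          unfold unif
          exact ae_restrict_mem (measurableSet_Icc.prod measurableSet_Icc)
        exact (Measure.quasiMeasurePreserving_eval (μ := fun _ : Fin n => unif) u).ae h1
      exact hae
    refine (measure_mono hsub).trans ((measure_union_le _ _).trans ?_)
    rw [hz, zero_add]
    refine (measure_union_le _ _).trans (add_le_add ((measure_union_le _ _).trans
      (add_le_add ?_ ?_)) ?_)
    · exact near_count n m
    · exact ball_sum hn hr.le hA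
    · exact ball_max hn hr.le k hk hk2
  refine (add_le_add_left hbad _).trans ?_
  rw [← ENNReal.ofReal_add (by positivity) (by positivity),
    ← ENNReal.ofReal_add (by positivity) (by positivity),
    ← ENNReal.ofReal_add (by positivity) hb0]

end EA42
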