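import Pool.Agent.Lib.MP_ea42c6_pr.One.N15

/-!
# N16 — the limit

Given `η > 0`: `A ≥ 1` with `1/A ≤ η/5` and `(2/ε) exp(-A) ≤ η/5`; `m` with `648/ε ≤ m²`.
For large `n`: `r = r n`.  If `r ≤ 0` the balls are empty, the graph has no edge and
`largest ≤ 1 < ε n`: the probability is 0.  If `r > 0`: `k = ⌈max (144 n r²) (2 log n)⌉₊`,
`K = ⌈A (k+1)⌉₊`; `exp(-K/(k+1)) ≤ exp(-A)`; `K r² ≤ (A (k+1) + 1) r²`,
`k ≤ 144 n r² + 2 log n + 1`, so `K r² ≤ A (144 n r⁴ + 2 r² log n + 2 r²) + r²`, which tends to 0: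
`n r⁴ = (n^(1/4) r)⁴ → 0`, `r² log n = (n^(1/4) r)² (log n/√n) → 0`, `r → 0`.
Hypothesis in the form `n r⁴ → 0` (equivalent to `r = o(n^(-1/4))` for `r ≥ 0`).
`one_n` with `ε' = min ε 1`; `probGiant` is antitone in `ε`.
-/

namespace EA42

open MeasureTheory Filter
open scoped Classical ENNReal

theorem probGiant_anti (ξ : PMF ℕ) (n : ℕ) (r : ℝ) {c c' : ℝ} (h : c ≤ c') :
    probGiant ξ n r c' ≤ probGiant ξ n r c := by
  refine measure_mono fun ω hω => ?_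
  exact le_trans (mul_le_mul_of_nonneg_right h (Nat.cast_nonneg n)) hω

theorem N16_largest_bot {V : Type*} [Fintype V] (G : SimpleGraph V) (hG : ∀ u v, ¬ G.Adj u v) :
    largest G ≤ 1 := by
  have hbot : ∀ u v, G.Reachable u v → u = v := by
    intro u v huv
    have hG' : G = ⊥ := by
      ext a b
      simp [hG a b]
    rw [hG', SimpleGraph.reachable_bot] at huv
    exact huv
  unfold largest
  refine Finset.sup_le fun v _ => ?_
  refine Finset.card_le_one.2 fun a ha b hb => ?_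
  rw [← hbot v a (Finset.mem_filter.1 ha).2, ← hbot v b (Finset.mem_filter.1 hb).2]

theorem N16_largest {n : ℕ} {r : ℝ} (hr : r ≤ 0) (ω : Sample n) : largest (irr ω r) ≤ 1 := by
  have hball : ∀ u, ball ω.1 r u = ∅ := by
    intro u
    refine Finset.filter_eq_empty_iff.2 fun v _ hv => ?_
    have h0 : 0 ≤ tdist (ω.1 u) (ω.1 v) := Real.sqrt_nonneg _
    linarith
  have hadj : ∀ u v, ¬ (irr ω r).Adj u v := by
    intro u v h
    unfold irr at h
    rw [SimpleGraph.fromRel_adj] at h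
    have hp : ∀ a b, b ∉ picks ω r a := by
      intro a b hb
      unfold picks at hb
      rw [hball a] at hb
      simp at hb
    rcases h.2 with h1 | h1
    · exact hp _ _ h1
    · exact hp _ _ h1
  exact N16_largest_bot _ hadj

theorem probGiant_nonpos (ξ : PMF ℕ) {n : ℕ} {r c : ℝ} (hr : r ≤ 0) (h : 1 < c * n) :
    probGiant ξ n r c = 0 := by
  unfold probGiant
  have hE : {ω : Sample n | c * n ≤ (largest (irr ω r) : ℝ)} = ∅ := by
    refine Set.eq_empty_iff_forall_notMem.2 fun ω hω => ?_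
    have h1 : (largest (irr ω r) : ℝ) ≤ 1 := by exact_mod_cast N16_largest hr ω
    have h2 : c * n ≤ (largest (irr ω r) : ℝ) := hω
    linarith
  rw [hE, measure_empty]

theorem N16_sq {r : ℕ → ℝ}
    (hr : Tendsto (fun n : ℕ => (n : ℝ) * r n ^ 4) atTop (nhds 0)) :
    Tendsto (fun n : ℕ => r n ^ 2) atTop (nhds 0) ∧
      Tendsto (fun n : ℕ => r n ^ 2 * Real.log n) atTop (nhds 0) := by
  have h1 : Tendsto (fun n : ℕ => Real.sqrt ((n : ℝ) * r n ^ 4)) atTop (nhds 0) := by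
    have h := (Real.continuous_sqrt.tendsto 0).comp hr
    rwa [Real.sqrt_zero] at h
  have h2 : Tendsto (fun n : ℕ => (Real.sqrt (n : ℝ))⁻¹) atTop (nhds 0) :=
    tendsto_inv_atTop_zero.comp (Real.tendsto_sqrt_atTop.comp tendsto_natCast_atTop_atTop)
  have h3 : Tendsto (fun n : ℕ => Real.log n / Real.sqrt (n : ℝ)) atTop (nhds 0) := by
    have h := (isLittleO_log_rpow_atTop (r := 1 / 2) (by norm_num)).tendsto_div_nhds_zero.comp
      tendsto_natCast_atTop_atTop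
    refine h.congr fun n => ?_
    simp only [Function.comp_apply]
    rw [Real.sqrt_eq_rpow]
  have e : ∀ᶠ n : ℕ in atTop, r n ^ 2 = Real.sqrt ((n : ℝ) * r n ^ 4) * (Real.sqrt (n : ℝ))⁻¹ := by
    filter_upwards [eventually_gt_atTop 0] with n hn
    have hn' : (0 : ℝ) < n := by exact_mod_cast hn
    have hs : Real.sqrt (n : ℝ) ≠ 0 := (Real.sqrt_pos.2 hn').ne'
    rw [Real.sqrt_mul hn'.le, show r n ^ 4 = (r n ^ 2) ^ 2 by ring, Real.sqrt_sq (sq_nonneg _)]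
    field_simp
  constructor
  · have h := h1.mul h2
    rw [mul_zero] at h
    refine h.congr' ?_
    filter_upwards [e] with n hn
    rw [hn]
  · have h := h1.mul h3
    rw [mul_zero] at h
    refine h.congr' ?_
    filter_upwards [e] with n hn
    rw [hn]
    ring

theorem N16_consts {ε η : ℝ} (hε : 0 < ε) (hη : 0 < η) :
    ∃ A : ℝ, 1 ≤ A ∧ 1 / A ≤ η ∧ 2 / ε * Real.exp (-A) ≤ η := by
  have h1 : Tendsto (fun A : ℝ => 1 / A) atTop (nhds 0) := by
    simpa [one_div] using (tendsto_inv_atTop_zero (𝕜 := ℝ))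
  have h2 : Tendsto (fun A : ℝ => 2 / ε * Real.exp (-A)) atTop (nhds 0) := by
    have h := Real.tendsto_exp_neg_atTop_nhds_zero.const_mul (2 / ε)
    rwa [mul_zero] at h
  obtain ⟨A, hA⟩ := ((h1.eventually_le_const hη).and
    ((h2.eventually_le_const hη).and (eventually_ge_atTop 1))).exists
  exact ⟨A, hA.2.2, hA.1, hA.2.1⟩

theorem N16_K {n : ℕ} {r A : ℝ} (hA : 1 ≤ A) (hn : 1 ≤ n) :
    ((⌈A * ((⌈max (144 * n * r ^ 2) (2 * Real.log n)⌉₊ : ℝ) + 1)⌉₊ : ℕ) : ℝ) * r ^ 2 ≤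
      A * 144 * (n * r ^ 4) + 2 * A * (r ^ 2 * Real.log n) + (2 * A + 1) * r ^ 2 := by
  have hn' : (1 : ℝ) ≤ n := by exact_mod_cast hn
  have hlog : 0 ≤ Real.log n := Real.log_nonneg hn'
  have hx : 0 ≤ 144 * n * r ^ 2 := by positivity
  set k : ℕ := ⌈max (144 * n * r ^ 2) (2 * Real.log n)⌉₊ with hk
  have hk1 : (k : ℝ) ≤ 144 * n * r ^ 2 + 2 * Real.log n + 1 := by
    have h1 : (k : ℝ) < max (144 * n * r ^ 2) (2 * Real.log n) + 1 :=
      Nat.ceil_lt_add_one (le_trans hx (le_max_left _ _))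
    have h2 : max (144 * n * r ^ 2) (2 * Real.log n) ≤ 144 * n * r ^ 2 + 2 * Real.log n :=
      max_le (by linarith) (by linarith)
    linarith
  have hK : ((⌈A * ((k : ℝ) + 1)⌉₊ : ℕ) : ℝ) ≤ A * ((k : ℝ) + 1) + 1 :=
    (Nat.ceil_lt_add_one (by positivity)).le
  have hr2 : 0 ≤ r ^ 2 := sq_nonneg r
  have h3 : A * ((k : ℝ) + 1) ≤ A * (144 * n * r ^ 2 + 2 * Real.log n + 1 + 1) :=
    mul_le_mul_of_nonneg_left (by linarith) (by linarith)
  calc ((⌈A * ((k : ℝ) + 1)⌉₊ : ℕ) : ℝ) * r ^ 2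
      ≤ (A * (144 * n * r ^ 2 + 2 * Real.log n + 1 + 1) + 1) * r ^ 2 :=
        mul_le_mul_of_nonneg_right (by linarith) hr2
    _ = A * 144 * (n * r ^ 4) + 2 * A * (r ^ 2 * Real.log n) + (2 * A + 1) * r ^ 2 := by ring

theorem one_pick (r : ℕ → ℝ) (hr0 : ∀ᶠ n : ℕ in atTop, 0 ≤ r n)
    (hr : Tendsto (fun n : ℕ => (n : ℝ) * r n ^ 4) atTop (nhds 0)) {ε : ℝ} (hε : 0 < ε) :
    Tendsto (fun n => probGiant (PMF.pure 1) n (r n) ε) atTop (nhds 0) := by
  rw [ENNReal.tendsto_nhds_zero]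
  intro η0 hη0
  obtain ⟨η, hη, hηle⟩ : ∃ η : ℝ, 0 < η ∧ ENNReal.ofReal η ≤ η0 := by
    by_cases htop : η0 = ⊤
    · exact ⟨1, one_pos, by rw [htop]; exact le_top⟩
    · exact ⟨η0.toReal, ENNReal.toReal_pos hη0.ne' htop, by rw [ENNReal.ofReal_toReal htop]⟩
  have hη5 : 0 < η / 5 := by positivity
  set ε' : ℝ := min ε 1 with hε'
  have hε'0 : 0 < ε' := lt_min hε one_pos
  obtain ⟨A, hA1, hA2, hA3⟩ := N16_consts hε'0 hη5
  have hA0 : 0 < A := by linarith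
  obtain ⟨m, hm1, hm⟩ : ∃ m : ℕ, 1 ≤ m ∧ 648 / ε' ≤ (m : ℝ) ^ 2 := by
    refine ⟨⌈648 / ε'⌉₊ + 1, by omega, ?_⟩
    have h1 : 648 / ε' ≤ (⌈648 / ε'⌉₊ : ℝ) := Nat.le_ceil _
    have h2 : (0 : ℝ) ≤ (⌈648 / ε'⌉₊ : ℝ) := Nat.cast_nonneg _
    push_cast
    nlinarith
  have hmne : NeZero m := ⟨by omega⟩
  have hm0 : (0 : ℝ) < m := by exact_mod_cast hm1
  obtain ⟨hsq, hsqlog⟩ := N16_sq hr
  -- the limits
  have t1 : Tendsto (fun n : ℕ => (m : ℝ) ^ 2 *
      (2 * Real.exp (-(1 ^ 2 * ((n : ℝ) / (m : ℝ) ^ 2) / 4)))) atTop (nhds 0) := by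
    have h1 : Tendsto (fun n : ℕ => 1 ^ 2 * ((n : ℝ) / (m : ℝ) ^ 2) / 4) atTop atTop := by
      have h := (tendsto_natCast_atTop_atTop (R := ℝ)).atTop_mul_const
        (show (0 : ℝ) < 1 / (m : ℝ) ^ 2 / 4 by positivity)
      refine h.congr fun n => ?_
      ring
    have h2 := (Real.tendsto_exp_neg_atTop_nhds_zero.comp h1).const_mul ((m : ℝ) ^ 2 * 2)
    rw [mul_zero] at h2
    refine h2.congr fun n => ?_
    simp only [Function.comp_apply]
    ring
  have t3 : Tendsto (fun n : ℕ => 1 / (n : ℝ)) atTop (nhds 0) := tendsto_one_div_atTop_nhds_zero_nat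
  have t5 : Tendsto (fun n : ℕ => 2 / ε' * (A * (1 + 1024 / ε') * (64 *
      (A * 144 * (n * r n ^ 4) + 2 * A * (r n ^ 2 * Real.log n) + (2 * A + 1) * r n ^ 2) *
        (m : ℝ) ^ 2))) atTop (nhds 0) := by
    have h1 : Tendsto (fun n : ℕ => A * 144 * (n * r n ^ 4) + 2 * A * (r n ^ 2 * Real.log n) +
        (2 * A + 1) * r n ^ 2) atTop (nhds (A * 144 * 0 + 2 * A * 0 + (2 * A + 1) * 0)) :=
      ((hr.const_mul (A * 144)).add (hsqlog.const_mul (2 * A))).add (hsq.const_mul (2 * A + 1))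
    have h2 := (((h1.const_mul 64).mul_const ((m : ℝ) ^ 2)).const_mul
      (A * (1 + 1024 / ε'))).const_mul (2 / ε')
    simp only [mul_zero, add_zero, zero_mul] at h2
    exact h2
  have hsmall : ∀ᶠ n : ℕ in atTop, r n ^ 2 ≤ (1 / (16 * (m : ℝ))) ^ 2 :=
    hsq.eventually_le_const (by positivity)
  have hbig : ∀ᶠ n : ℕ in atTop, 1 < ε * (n : ℝ) := by
    have h := (tendsto_natCast_atTop_atTop (R := ℝ)).const_mul_atTop hε
    exact h.eventually_gt_atTop 1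
  filter_upwards [hr0, t1.eventually_le_const hη5, t3.eventually_le_const hη5,
    t5.eventually_le_const hη5, hsmall, hbig, eventually_ge_atTop 1] with n h0 h1 h3 h5 h6 h7 h8
  rcases h0.eq_or_lt with hz | hpos
  · rw [probGiant_nonpos _ (le_of_eq hz.symm) h7]
    exact bot_le
  have hrm : 16 * r n ≤ 1 / (m : ℝ) := by
    have h9 : r n ≤ 1 / (16 * (m : ℝ)) := by
      have h10 : 0 ≤ 1 / (16 * (m : ℝ)) := by positivity
      exact (pow_le_pow_iff_left₀ h0 h10 two_ne_zero).1 h6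
    calc 16 * r n ≤ 16 * (1 / (16 * (m : ℝ))) := mul_le_mul_of_nonneg_left h9 (by norm_num)
      _ = 1 / (m : ℝ) := by field_simp
  set k : ℕ := ⌈max (144 * n * r n ^ 2) (2 * Real.log n)⌉₊ with hk
  set K : ℕ := ⌈A * ((k : ℝ) + 1)⌉₊ with hK
  have hkle : max (144 * n * r n ^ 2) (2 * Real.log n) ≤ (k : ℝ) := Nat.le_ceil _
  have hmain := one_n (n := n) (m := m) (K := K) (k := k) (by omega) hpos hε'0 (min_le_right _ _)
    hA0 hm hrm ((le_max_left _ _).trans hkle) ((le_max_right _ _).trans hkle)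
  refine (probGiant_anti _ n (r n) (min_le_left ε 1)).trans
    ((hmain.trans (ENNReal.ofReal_le_ofReal ?_)).trans hηle)
  have hk1 : (0 : ℝ) < (k : ℝ) + 1 := by positivity
  have h11 : A ≤ (K : ℝ) / ((k : ℝ) + 1) := by
    rw [le_div_iff₀ hk1]
    exact Nat.le_ceil _
  have h12 : Real.exp (-((K : ℝ) / ((k : ℝ) + 1))) ≤ Real.exp (-A) :=
    Real.exp_le_exp.2 (by linarith)
  have h13 : 2 / ε' * Real.exp (-((K : ℝ) / ((k : ℝ) + 1))) ≤ η / 5 :=
    (mul_le_mul_of_nonneg_left h12 (by positivity)).trans hA3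
  have h14 : (K : ℝ) * r n ^ 2 ≤ A * 144 * (n * r n ^ 4) + 2 * A * (r n ^ 2 * Real.log n) +
      (2 * A + 1) * r n ^ 2 := N16_K hA1 h8
  have h15 : 2 / ε' * (A * (1 + 1024 / ε') * (64 * K * r n ^ 2 * (m : ℝ) ^ 2)) ≤ η / 5 := by
    refine le_trans ?_ h5
    refine mul_le_mul_of_nonneg_left ?_ (by positivity)
    refine mul_le_mul_of_nonneg_left ?_ (by positivity)
    refine mul_le_mul_of_nonneg_right ?_ (by positivity)
    rw [mul_assoc]
    exact mul_le_mul_of_nonneg_left h14 (by norm_num)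
  rw [mul_add]
  linarith

end EA42
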