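import Pool.Agent.Lib.MP_ea42c6_pr.One.N1

/-!
# N2 — reversibility

Detailed balance: `|B u| kerW u v = |B v| kerW v u` (both are 1 or both are 0, `SymB`).  Hence
`|B (w 0)| ∏ kerW (w s) (w (s+1)) = (∏ kerW (w (s+1)) (w s)) |B (w K)|` (induction on `K`, or
telescoping), and the product on the right is that of the reversed walk (`Fin.revPerm`, `Fin.rev`).
-/

namespace EA42

open scoped Classical

variable {V : Type*} [Fintype V] {B : V → Finset V}

omit [Fintype V] in
theorem N2_db (hB : SymB B) (u v : V) :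
    ((B u).card : ℝ) * kerW B u v = ((B v).card : ℝ) * kerW B v u := by
  unfold kerW
  by_cases h : v ∈ B u
  · have h' : u ∈ B v := hB.symm u v h
    rw [if_pos h, if_pos h']
    have h1 : ((B u).card : ℝ) ≠ 0 := by
      exact_mod_cast (Finset.card_pos.mpr ⟨v, h⟩).ne'
    have h2 : ((B v).card : ℝ) ≠ 0 := by
      exact_mod_cast (Finset.card_pos.mpr ⟨u, h'⟩).ne'
    rw [mul_one_div_cancel h1, mul_one_div_cancel h2]
  · have h' : u ∉ B v := fun h' => h (hB.symm v u h')
    rw [if_neg h, if_neg h']
    simp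

omit [Fintype V] in
theorem N2_tele (hB : SymB B) (K : ℕ) (w : Fin (K + 1) → V) :
    ((B (w 0)).card : ℝ) * ∏ s : Fin K, kerW B (w s.castSucc) (w s.succ) =
      ((B (w (Fin.last K))).card : ℝ) * ∏ s : Fin K, kerW B (w s.succ) (w s.castSucc) := by
  induction K with
  | zero => simp
  | succ K ih =>
    rw [Fin.prod_univ_castSucc, Fin.prod_univ_castSucc]
    have h := ih (fun s => w s.castSucc)
    simp only [Fin.castSucc_zero] at h
    rw [← mul_assoc]
    have h1 : ∀ s : Fin K, (Fin.castSucc s).succ = (s.succ).castSucc := fun s => rfl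
    simp only [h1]
    rw [h]
    have h2 := N2_db hB (w (Fin.last K).castSucc) (w (Fin.last K).succ)
    rw [Fin.succ_last] at h2 ⊢
    calc ((B (w (Fin.last K).castSucc)).card : ℝ) *
          (∏ s : Fin K, kerW B (w s.succ.castSucc) (w s.castSucc.castSucc)) *
          kerW B (w (Fin.last K).castSucc) (w (Fin.last K.succ))
        = (((B (w (Fin.last K).castSucc)).card : ℝ) *
          kerW B (w (Fin.last K).castSucc) (w (Fin.last K.succ))) *
          (∏ s : Fin K, kerW B (w s.succ.castSucc) (w s.castSucc.castSucc)) := by ring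
      _ = _ := by rw [h2]; ring

theorem statW_rev (hB : SymB B) (K : ℕ) (w : Fin (K + 1) → V) :
    statW B K (fun s => w s.rev) = statW B K w := by
  unfold statW walkW
  rw [div_mul_eq_mul_div, div_mul_eq_mul_div]
  congr 1
  rw [N2_tele hB K w]
  simp only [Fin.rev_zero, Fin.rev_castSucc, Fin.rev_succ]
  congr 1
  exact Fintype.prod_equiv Fin.revPerm
    (fun s : Fin K => kerW B (w s.rev.succ) (w s.rev.castSucc))
    (fun s : Fin K => kerW B (w s.succ) (w s.castSucc)) (fun s => rfl)

theorem pr_statW_rev (hB : SymB B) (K : ℕ) (E : Set (Fin (K + 1) → V)) :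
    pr (statW B K) {w | (fun s => w (Fin.rev s)) ∈ E} = pr (statW B K) E := by
  unfold pr
  apply Fintype.sum_equiv (Equiv.arrowCongr (Fin.revPerm (n := K + 1)) (Equiv.refl V))
  intro w
  have h : (Equiv.arrowCongr (Fin.revPerm (n := K + 1)) (Equiv.refl V)) w
      = fun s => w (Fin.rev s) := by
    funext s
    simp [Equiv.arrowCongr]
  rw [h, statW_rev hB K w]
  rfl

end EA42
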