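import Pool.Agent.Lib.MP_ea42c6_pr.One.N1

/-!
# N3 — Kolmogorov's inequality for the martingale part

Induction on `K`, for all `u` and `m`.  If `|m| ≥ a` the bound is at least `m²/a² ≥ 1`.  Otherwise
`t = 0` does not count (`mart ... 0 = 0`); by `fromW_succ`, for `w = Fin.cons u w'`, `w' 0 = v`,
`t ≥ 1`: `m + mart (K+1) w t = (m + F u v - meanF u) + mart K w' (t-1)`.  So
`pr ≤ ∑_v kerW u v ((m + F u v - meanF u)² + K r²)/a²` and
`∑_v kerW u v (m + F u v - meanF u)² = m² + ∑_v kerW u v (F u v - meanF u)² ≤ m² + r²`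
(`∑ kerW u v (F u v - meanF u) = 0`; the variance is at most `∑ kerW u v F u v² ≤ r²`).
`K = 0`: the event is `a ≤ |m|`.
(In the sum only walks with `w' 0 = v` count: `pr (fromW v K)` restricts to them; use
`pr_mono_supp` or rewrite the event with `w' 0`.)
-/

namespace EA42

open scoped Classical

theorem n3_mart_cons {V : Type*} [Fintype V] {B : V → Finset V} (F : V → V → ℝ) (K : ℕ) (u : V)
    (w : Fin (K + 1) → V) (t : ℕ) :
    mart B F (K + 1) (Fin.cons u w : Fin (K + 2) → V) (t + 1) =
      (F u (w 0) - meanF B F u) + mart B F K w t := by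
  unfold mart
  rw [Fin.sum_univ_succ]
  refine congrArg₂ (· + ·) ?_ ?_
  · rw [if_pos (by simp)]
    simp only [Fin.castSucc_zero, Fin.cons_zero, Fin.cons_succ]
  · refine Finset.sum_congr rfl fun s _ => ?_
    rw [Fin.castSucc_succ]
    simp only [Fin.cons_succ, Fin.val_succ, Nat.add_lt_add_iff_right]

theorem n3_mart_zero {V : Type*} [Fintype V] {B : V → Finset V} (F : V → V → ℝ) (K : ℕ)
    (w : Fin (K + 1) → V) : mart B F K w 0 = 0 := by
  unfold mart
  exact Finset.sum_eq_zero fun s _ => if_neg (Nat.not_lt_zero _)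

theorem n3_mart_K0 {V : Type*} [Fintype V] {B : V → Finset V} (F : V → V → ℝ)
    (w : Fin (0 + 1) → V) (t : ℕ) : mart B F 0 w t = 0 := by
  unfold mart
  exact Fintype.sum_empty _

theorem n3_var {V : Type*} [Fintype V] {B : V → Finset V} (hself : ∀ u, u ∈ B u)
    (F : V → V → ℝ) {r : ℝ} (hF : ∀ u, ∀ v ∈ B u, |F u v| ≤ r) (u : V) (m : ℝ) :
    ∑ v, kerW B u v * (m + (F u v - meanF B F u)) ^ 2 ≤ m ^ 2 + r ^ 2 := by
  have hp := isProb_kerW (B := B) hself u
  have h1 : ∀ v, kerW B u v * (m + (F u v - meanF B F u)) ^ 2 =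
      (m - meanF B F u) ^ 2 * kerW B u v + 2 * (m - meanF B F u) * (kerW B u v * F u v) +
        kerW B u v * F u v ^ 2 := fun v => by ring
  rw [Finset.sum_congr rfl fun v _ => h1 v, Finset.sum_add_distrib, Finset.sum_add_distrib,
    ← Finset.mul_sum, ← Finset.mul_sum, hp.2]
  have h2 : ∑ v, kerW B u v * F u v = meanF B F u := rfl
  rw [h2]
  have h3 : ∑ v, kerW B u v * F u v ^ 2 ≤ r ^ 2 := by
    calc ∑ v, kerW B u v * F u v ^ 2 ≤ ∑ v, kerW B u v * r ^ 2 := by
          refine Finset.sum_le_sum fun v _ => ?_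
          by_cases hv : v ∈ B u
          · refine mul_le_mul_of_nonneg_left ?_ (hp.1 v)
            rw [← sq_abs]
            exact pow_le_pow_left₀ (abs_nonneg _) (hF u v hv) 2
          · have : kerW B u v = 0 := if_neg hv
            rw [this, zero_mul, zero_mul]
      _ = r ^ 2 := by rw [← Finset.sum_mul, hp.2, one_mul]
  nlinarith [sq_nonneg (meanF B F u)]

theorem kolm {V : Type*} [Fintype V] {B : V → Finset V} (hself : ∀ u, u ∈ B u)
    (F : V → V → ℝ) {r a : ℝ} (hr : 0 ≤ r) (ha : 0 < a) (hF : ∀ u, ∀ v ∈ B u, |F u v| ≤ r)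
    (K : ℕ) (u : V) (m : ℝ) :
    pr (fromW B u K) {w | ∃ t ≤ K, a ≤ |m + mart B F K w t|} ≤ (m ^ 2 + K * r ^ 2) / a ^ 2 := by
  have ha2 : 0 < a ^ 2 := by positivity
  induction K generalizing u m with
  | zero =>
    by_cases hm : a ≤ |m|
    · refine (pr_le_one (isProb_fromW hself u 0) _).trans ?_
      rw [le_div_iff₀ ha2, one_mul]
      have : a ^ 2 ≤ m ^ 2 := by
        rw [← sq_abs m]
        exact pow_le_pow_left₀ ha.le hm 2
      simpa using this
    · have h0 : pr (fromW B u 0) {w | ∃ t ≤ 0, a ≤ |m + mart B F 0 w t|} = 0 := by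
        unfold pr
        refine Finset.sum_eq_zero fun w _ => if_neg ?_
        rintro ⟨t, -, ht⟩
        rw [n3_mart_K0, add_zero] at ht
        exact hm ht
      rw [h0]
      positivity
  | succ K ih =>
    by_cases hm : a ≤ |m|
    · refine (pr_le_one (isProb_fromW hself u (K + 1)) _).trans ?_
      rw [le_div_iff₀ ha2, one_mul]
      have : a ^ 2 ≤ m ^ 2 := by
        rw [← sq_abs m]
        exact pow_le_pow_left₀ ha.le hm 2
      have h2 : 0 ≤ ((K + 1 : ℕ) : ℝ) * r ^ 2 := by positivity
      linarith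
    · rw [fromW_succ]
      have hker := isProb_kerW (B := B) hself u
      have hstep : ∀ v, pr (fromW B v K) {w | (Fin.cons u w : Fin (K + 2) → V) ∈
          {w | ∃ t ≤ K + 1, a ≤ |m + mart B F (K + 1) w t|}} ≤
          ((m + (F u v - meanF B F u)) ^ 2 + K * r ^ 2) / a ^ 2 := by
        intro v
        refine le_trans ?_ (ih v (m + (F u v - meanF B F u)))
        refine pr_mono_supp (isProb_fromW hself v K) fun w hw hE => ?_
        have hw0 : w 0 = v := by
          by_contra hne
          exact hw (if_neg hne)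
        obtain ⟨t, ht, hta⟩ := hE
        cases t with
        | zero =>
          rw [n3_mart_zero, add_zero] at hta
          exact absurd hta hm
        | succ t =>
          refine ⟨t, by omega, ?_⟩
          rw [n3_mart_cons, hw0] at hta
          rw [add_assoc]
          exact hta
      calc ∑ v, kerW B u v * pr (fromW B v K) {w | (Fin.cons u w : Fin (K + 2) → V) ∈
          {w | ∃ t ≤ K + 1, a ≤ |m + mart B F (K + 1) w t|}}
          ≤ ∑ v, kerW B u v * (((m + (F u v - meanF B F u)) ^ 2 + K * r ^ 2) / a ^ 2) :=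
            Finset.sum_le_sum fun v _ => mul_le_mul_of_nonneg_left (hstep v) (hker.1 v)
        _ = (∑ v, kerW B u v * (m + (F u v - meanF B F u)) ^ 2 + K * r ^ 2) / a ^ 2 := by
            have : ∀ v, kerW B u v * (((m + (F u v - meanF B F u)) ^ 2 + K * r ^ 2) / a ^ 2) =
                (kerW B u v * (m + (F u v - meanF B F u)) ^ 2 + kerW B u v * (K * r ^ 2)) /
                  a ^ 2 := fun v => by ring
            rw [Finset.sum_congr rfl fun v _ => this v, ← Finset.sum_div, Finset.sum_add_distrib,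
              ← Finset.sum_mul, hker.2, one_mul]
        _ ≤ (m ^ 2 + ((K + 1 : ℕ) : ℝ) * r ^ 2) / a ^ 2 := by
            refine div_le_div_of_nonneg_right ?_ ha2.le
            have := n3_var hself F hF u m
            push_cast
            linarith

end EA42
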