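import Pool.Agent.Lib.MP_ea42c6_pr.One.N2
import Pool.Agent.Lib.MP_ea42c6_pr.One.N3

/-!
# N4 — the forward/backward decomposition (Lyons–Zheng)

`F` antisymmetric on the support.  Write `b = meanF B F`, `w'` for the reversed walk.
For `t ≤ K`: `2 addF w t = mart w t - (mart w' K - mart w' (K-t)) + b (w 0) - b (w t)`:
indeed `mart w' K - mart w' (K-t) = ∑_{j=K-t}^{K-1} (F (w'_j) (w'_{j+1}) - b (w'_j))`
`= ∑_{s<t} (F (w_{s+1}) (w_s) - b (w_{s+1})) = - addF w t - ∑_{s<t} b (w_{s+1})` (with `w'_j = w_{K-j}`,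
`j = K-1-s`), and `mart w t = addF w t - ∑_{s<t} b (w_s)`; the sums of `b` telescope.
`|b| ≤ r`.  If `|addF w t| ≥ a` and `8 r ≤ a` then `2a ≤ |mart w t| + 2 max_j |mart w' j| + a/4`, so
`|mart w t| ≥ a/2` or `|mart w' j| ≥ a/2` for some `j ≤ K`.
Both events have probability at most `K r²/(a/2)²` (`kolm` with `m = 0` and `pr_statW`; for the
reversed walk `pr_statW_rev`).  Total `8 K r²/a²`.
-/

namespace EA42

open scoped Classical

/-- The sums of differences telescope. -/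
theorem n4_tele {K : ℕ} (g : Fin (K + 1) → ℝ) {t : ℕ} (ht : t ≤ K) :
    ∑ s : Fin K, (if (s : ℕ) < t then g s.succ - g s.castSucc else 0) =
      g ⟨t, Nat.lt_succ_of_le ht⟩ - g 0 := by
  obtain ⟨G, hG⟩ : ∃ G : ℕ → ℝ, ∀ i (h : i < K + 1), G i = g ⟨i, h⟩ :=
    ⟨fun i => if h : i < K + 1 then g ⟨i, h⟩ else 0, fun i h => dif_pos h⟩
  have h1 : ∀ s : Fin K, (if (s : ℕ) < t then g s.succ - g s.castSucc else 0) =
      (fun i : ℕ => if i < t then G (i + 1) - G i else 0) (s : ℕ) := by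
    intro s
    have h2 : (s : ℕ) + 1 < K + 1 := by omega
    have h3 : (s : ℕ) < K + 1 := by omega
    simp only [hG _ h2, hG _ h3]
    rfl
  rw [Finset.sum_congr rfl fun s _ => h1 s,
    Fin.sum_univ_eq_sum_range (fun i : ℕ => if i < t then G (i + 1) - G i else 0) K,
    ← Finset.sum_filter]
  have h4 : (Finset.range K).filter (fun i => i < t) = Finset.range t := by
    ext i
    simp only [Finset.mem_filter, Finset.mem_range]
    omega
  rw [h4, Finset.sum_range_sub, hG t (by omega), hG 0 (by omega)]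
  rfl

theorem n4_back {V : Type*} [Fintype V] {B : V → Finset V} (F : V → V → ℝ) {K : ℕ}
    (w : Fin (K + 1) → V) (hanti : ∀ s : Fin K, F (w s.succ) (w s.castSucc) =
      -F (w s.castSucc) (w s.succ)) {t : ℕ} (ht : t ≤ K) :
    mart B F K (fun s => w s.rev) K - mart B F K (fun s => w s.rev) (K - t) =
      -addF F K w t - ∑ s : Fin K, (if (s : ℕ) < t then meanF B F (w s.succ) else 0) := by
  unfold mart addF
  rw [← Finset.sum_sub_distrib, ← Finset.sum_neg_distrib, ← Finset.sum_sub_distrib,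
    ← Equiv.sum_comp Fin.revPerm]
  refine Finset.sum_congr rfl fun s _ => ?_
  simp only [Fin.revPerm_apply, Fin.rev_castSucc, Fin.rev_succ, Fin.rev_rev]
  rw [if_pos (Fin.rev s).isLt]
  have h1 : ((Fin.rev s : Fin K) : ℕ) = K - (s + 1) := Fin.val_rev s
  by_cases hs : (s : ℕ) < t
  · rw [if_neg (by omega), if_pos hs, if_pos hs, hanti s]
    ring
  · rw [if_pos (by omega), if_neg hs, if_neg hs]
    ring

theorem n4_forw {V : Type*} [Fintype V] {B : V → Finset V} (F : V → V → ℝ) {K : ℕ}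
    (w : Fin (K + 1) → V) (t : ℕ) :
    mart B F K w t = addF F K w t -
      ∑ s : Fin K, (if (s : ℕ) < t then meanF B F (w s.castSucc) else 0) := by
  unfold mart addF
  rw [← Finset.sum_sub_distrib]
  refine Finset.sum_congr rfl fun s _ => ?_
  by_cases hs : (s : ℕ) < t
  · rw [if_pos hs, if_pos hs, if_pos hs]
  · rw [if_neg hs, if_neg hs, if_neg hs, sub_zero]

theorem n4_meanF {V : Type*} [Fintype V] {B : V → Finset V} (hself : ∀ u, u ∈ B u)
    (F : V → V → ℝ) {r : ℝ} (hF : ∀ u, ∀ v ∈ B u, |F u v| ≤ r) (u : V) :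
    |meanF B F u| ≤ r := by
  have hp := isProb_kerW (B := B) hself u
  unfold meanF
  refine (Finset.abs_sum_le_sum_abs _ _).trans ?_
  calc ∑ v, |kerW B u v * F u v| ≤ ∑ v, kerW B u v * r := by
        refine Finset.sum_le_sum fun v _ => ?_
        rw [abs_mul, abs_of_nonneg (hp.1 v)]
        by_cases hv : v ∈ B u
        · exact mul_le_mul_of_nonneg_left (hF u v hv) (hp.1 v)
        · have : kerW B u v = 0 := if_neg hv
          rw [this, zero_mul, zero_mul]
    _ = r := by rw [← Finset.sum_mul, hp.2, one_mul]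

theorem n4_kolm_stat {V : Type*} [Fintype V] [Nonempty V] {B : V → Finset V}
    (hself : ∀ u, u ∈ B u) (F : V → V → ℝ) {r a : ℝ} (hr : 0 ≤ r) (ha : 0 < a)
    (hF : ∀ u, ∀ v ∈ B u, |F u v| ≤ r) (K : ℕ) :
    pr (statW B K) {w | ∃ t ≤ K, a ≤ |mart B F K w t|} ≤ K * r ^ 2 / a ^ 2 := by
  rw [pr_statW]
  have hpos : 0 < ∑ x, ((B x).card : ℝ) := by
    refine Finset.sum_pos (fun x _ => ?_) Finset.univ_nonempty
    exact_mod_cast Finset.card_pos.2 ⟨x, hself x⟩
  have h1 : ∀ u, pr (fromW B u K) {w | ∃ t ≤ K, a ≤ |mart B F K w t|} ≤ K * r ^ 2 / a ^ 2 := by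
    intro u
    have h2 := kolm hself F hr ha hF K u 0
    simp only [zero_add] at h2
    refine h2.trans (le_of_eq ?_)
    ring
  calc ∑ u, ((B u).card : ℝ) / (∑ x, ((B x).card : ℝ)) *
        pr (fromW B u K) {w | ∃ t ≤ K, a ≤ |mart B F K w t|}
      ≤ ∑ u, ((B u).card : ℝ) / (∑ x, ((B x).card : ℝ)) * (K * r ^ 2 / a ^ 2) :=
        Finset.sum_le_sum fun u _ => mul_le_mul_of_nonneg_left (h1 u) (by positivity)
    _ = K * r ^ 2 / a ^ 2 := by
        rw [← Finset.sum_mul, ← Finset.sum_div, div_self hpos.ne', one_mul]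

theorem lyons_zheng {V : Type*} [Fintype V] [Nonempty V] {B : V → Finset V} (hB : SymB B)
    (F : V → V → ℝ) {r a : ℝ} (hr : 0 ≤ r) (ha : 0 < a) (hra : 8 * r ≤ a)
    (hF : ∀ u, ∀ v ∈ B u, |F u v| ≤ r) (hanti : ∀ u, ∀ v ∈ B u, F v u = -F u v) (K : ℕ) :
    pr (statW B K) {w | ∃ t ≤ K, a ≤ |addF F K w t|} ≤ 8 * K * r ^ 2 / a ^ 2 := by
  have hself := hB.self
  have hP := isProb_statW (B := B) hself K
  have h1 : pr (statW B K) {w | ∃ t ≤ K, a ≤ |addF F K w t|} ≤
      pr (statW B K) ({w | ∃ t ≤ K, a / 2 ≤ |mart B F K w t|} ∪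
        {w | (fun s => w (Fin.rev s)) ∈ {w | ∃ t ≤ K, a / 2 ≤ |mart B F K w t|}}) := by
    refine pr_mono_supp hP fun w hw hE => ?_
    obtain ⟨t, ht, hta⟩ := hE
    have hs : ∀ s : Fin K, F (w s.succ) (w s.castSucc) = -F (w s.castSucc) (w s.succ) :=
      fun s => hanti _ _ (statW_supp K w hw s)
    have e1 := n4_back (B := B) F w hs ht
    have e2 := n4_forw (B := B) F w t
    have e3 := n4_tele (fun i => meanF B F (w i)) ht
    have e4 : ∑ s : Fin K, (if (s : ℕ) < t then meanF B F (w s.succ) - meanF B F (w s.castSucc)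
        else 0) = ∑ s : Fin K, (if (s : ℕ) < t then meanF B F (w s.succ) else 0) -
          ∑ s : Fin K, (if (s : ℕ) < t then meanF B F (w s.castSucc) else 0) := by
      rw [← Finset.sum_sub_distrib]
      refine Finset.sum_congr rfl fun s _ => ?_
      by_cases hs : (s : ℕ) < t
      · rw [if_pos hs, if_pos hs, if_pos hs]
      · rw [if_neg hs, if_neg hs, if_neg hs, sub_zero]
    have b1 := abs_le.1 (n4_meanF hself F hF (w ⟨t, Nat.lt_succ_of_le ht⟩))
    have b2 := abs_le.1 (n4_meanF hself F hF (w 0))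
    by_contra hcon
    simp only [Set.mem_union, Set.mem_ofPred_eq, not_or, not_exists, not_and, not_le] at hcon
    obtain ⟨c1, c2⟩ := hcon
    have d1 := abs_lt.1 (c1 t ht)
    have d2 := abs_lt.1 (c2 K le_rfl)
    have d3 := abs_lt.1 (c2 (K - t) (Nat.sub_le _ _))
    rcases le_abs.1 hta with h | h <;> linarith
  refine h1.trans ((pr_union_le hP _ _).trans ?_)
  rw [pr_statW_rev hB]
  have h2 := n4_kolm_stat hself F hr (a := a / 2) (by linarith) hF K
  have h3 : 8 * K * r ^ 2 / a ^ 2 = K * r ^ 2 / (a / 2) ^ 2 + K * r ^ 2 / (a / 2) ^ 2 := by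
    field_simp
    ring
  rw [h3]
  exact add_le_add h2 h2

end EA42
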