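import Pool.Agent.Lib.MP_ea42c6_pr.One.N1

/-!
# N6 — hitting probabilities

From `fromW_zero`, `fromW_succ`: for `w = Fin.cons u w'`, `(∃ t, A (w t)) ↔ A u ∨ ∃ t, A (w' t)`
(`Fin.exists_fin_succ`-type: `Fin.exists_fin_succ`/`Fin.exists_iff_succ`).
-/

namespace EA42

open scoped Classical

variable {V : Type*} [Fintype V] {B : V → Finset V}

theorem hitP_nonneg (hself : ∀ u, u ∈ B u) (A : V → Prop) (K : ℕ) (u : V) :
    0 ≤ hitP B A K u := by
  unfold hitP pr
  refine Finset.sum_nonneg fun w _ => ?_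
  split_ifs
  · exact (isProb_fromW hself u K).1 w
  · exact le_rfl

theorem hitP_of (hself : ∀ u, u ∈ B u) (A : V → Prop) (K : ℕ) {u : V} (hu : A u) :
    hitP B A K u = 1 := by
  unfold hitP pr
  rw [← (isProb_fromW hself u K).2]
  refine Finset.sum_congr rfl fun w _ => ?_
  by_cases h0 : w 0 = u
  · have h1 : w ∈ {w : Fin (K + 1) → V | ∃ t, A (w t)} := ⟨0, by rw [h0]; exact hu⟩
    rw [if_pos h1]
  · have h2 : fromW B u K w = 0 := by
      unfold fromW
      rw [if_neg h0]
    rw [h2]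
    split_ifs <;> rfl

theorem hitP_succ (A : V → Prop) (K : ℕ) {u : V} (hu : ¬ A u) :
    hitP B A (K + 1) u = ∑ v, kerW B u v * hitP B A K v := by
  unfold hitP
  rw [fromW_succ]
  refine Finset.sum_congr rfl fun v _ => ?_
  have h1 : {w : Fin (K + 1) → V | (Fin.cons u w : Fin (K + 2) → V) ∈
      {w : Fin (K + 1 + 1) → V | ∃ t, A (w t)}} = {w : Fin (K + 1) → V | ∃ t, A (w t)} := by
    ext w
    constructor
    · rintro ⟨t, ht⟩
      refine Fin.cases ?_ ?_ t ht
      · intro h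
        exact absurd h hu
      · intro i hi
        exact ⟨i, hi⟩
    · rintro ⟨t, ht⟩
      exact ⟨t.succ, ht⟩
  rw [h1]

end EA42
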